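import Pool.Agent.K3h72.Tr.P
import Pool.Agent.H847R3.XpXqD

/-!
Translates by elements of infinite order.
-/

set_option autoImplicit false

open MeasureTheory Filter Topology Set

namespace Pool.Agent.K3h72.Tr

/-- uniform Riemann sums -/
lemma riemann {f : UnitAddCircle → ℝ} (hf : Continuous f) {ε : ℝ} (hε : 0 < ε) :
    ∃ N : ℕ, 0 < N ∧ ∃ δ : ℝ, 0 < δ ∧ ∀ a : ℕ → UnitAddCircle,
      (∀ j < N, dist (a j) (((j : ℝ) / N : ℝ) : UnitAddCircle) < δ) → ∀ y : UnitAddCircle,
        ∑ j ∈ Finset.range N, f (y + a j) ≤ N * ((∫ x, f x) + ε) := by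
  have huc : UniformContinuous f := CompactSpace.uniformContinuous_of_continuous hf
  obtain ⟨δ, hδ, hfδ⟩ := Metric.uniformContinuous_iff.1 huc ε hε
  obtain ⟨N, hN⟩ := exists_nat_gt (2 / δ)
  have hN0 : (0 : ℝ) < N := lt_trans (by positivity) hN
  have hNpos : 0 < N := by exact_mod_cast hN0
  have hN1 : 1 / (N : ℝ) < δ / 2 := by
    rw [div_lt_iff₀ hδ] at hN
    rw [div_lt_iff₀ hN0]
    linarith
  refine ⟨N, hNpos, δ / 2, by positivity, fun a ha y => ?_⟩
  set g : ℝ → ℝ := fun t => f (y + (t : UnitAddCircle)) with hg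
  have hgc : Continuous g := hf.comp (continuous_const.add (AddCircle.continuous_mk' 1))
  have key : ∀ j < N, (1 / (N : ℝ)) * f (y + a j) ≤
      (∫ t in ((j : ℝ) / N)..(((j + 1 : ℕ) : ℝ) / N), g t) + ε / N := by
    intro j hj
    have hle : (j : ℝ) / N ≤ (((j + 1 : ℕ) : ℝ) / N) := by
      apply div_le_div_of_nonneg_right _ hN0.le
      exact_mod_cast Nat.le_succ j
    have hlen : (((j + 1 : ℕ) : ℝ) / N) - (j : ℝ) / N = 1 / N := by
      push_cast; ring
    have h1 : ∀ t ∈ Icc ((j : ℝ) / N) (((j + 1 : ℕ) : ℝ) / N), f (y + a j) - ε ≤ g t := by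
      intro t ht
      have h2 : dist (y + a j) (y + (t : UnitAddCircle)) < δ := by
        rw [dist_add_left]
        have h3 : dist (((j : ℝ) / N : ℝ) : UnitAddCircle) (t : UnitAddCircle) ≤ 1 / N := by
          refine (Pool.Agent.H847R3.XpXq.dist_coe_le _ _).trans ?_
          rw [abs_sub_comm, abs_of_nonneg (by linarith [ht.1]), ← hlen]
          linarith [ht.2]
        calc dist (a j) (t : UnitAddCircle) ≤ _ := dist_triangle _ _ _
          _ < δ / 2 + δ / 2 := add_lt_add_of_lt_of_le (ha j hj) (h3.trans hN1.le)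
          _ = δ := by ring
      have h4 := hfδ h2
      rw [Real.dist_eq, abs_lt] at h4
      linarith [h4.2]
    have h5 : ∫ t in ((j : ℝ) / N)..(((j + 1 : ℕ) : ℝ) / N), (f (y + a j) - ε) ≤
        ∫ t in ((j : ℝ) / N)..(((j + 1 : ℕ) : ℝ) / N), g t :=
      intervalIntegral.integral_mono_on hle intervalIntegrable_const
        (hgc.intervalIntegrable _ _) h1
    rw [intervalIntegral.integral_const, hlen, smul_eq_mul] at h5
    have h6 : 1 / (N : ℝ) * (f (y + a j) - ε) = 1 / (N : ℝ) * f (y + a j) - ε / N := by ring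
    linarith
  have hsum : (1 / (N : ℝ)) * ∑ j ∈ Finset.range N, f (y + a j) ≤ (∫ x, f x) + ε := by
    calc (1 / (N : ℝ)) * ∑ j ∈ Finset.range N, f (y + a j)
        = ∑ j ∈ Finset.range N, (1 / (N : ℝ)) * f (y + a j) := by rw [Finset.mul_sum]
      _ ≤ ∑ j ∈ Finset.range N,
          ((∫ t in ((j : ℝ) / N)..(((j + 1 : ℕ) : ℝ) / N), g t) + ε / N) :=
          Finset.sum_le_sum fun j hj => key j (Finset.mem_range.1 hj)
      _ = (∫ t in ((0 : ℕ) : ℝ) / N..((N : ℕ) : ℝ) / N, g t) + ε := by
          rw [Finset.sum_add_distrib]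
          congr 1
          · exact intervalIntegral.sum_integral_adjacent_intervals
              (a := fun k : ℕ => (k : ℝ) / N)
              (fun k _ => hgc.intervalIntegrable _ _)
          · rw [Finset.sum_const, Finset.card_range, nsmul_eq_mul]
            field_simp
      _ = (∫ x, f x) + ε := by
          congr 1
          have e1 : ((0 : ℕ) : ℝ) / N = 0 := by simp
          have e2 : (N : ℝ) / N = 0 + 1 := by field_simp; simp
          rw [e1, e2]
          have e3 := UnitAddCircle.intervalIntegral_preimage 0 (fun x : UnitAddCircle => f (y + x))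
          rw [hg, e3]
          exact integral_add_left_eq_self f y
  have := mul_le_mul_of_nonneg_left hsum hN0.le
  rwa [← mul_assoc, mul_one_div_cancel hN0.ne', one_mul] at this

/-- multiplication by `p ^ i * q ^ j` preserves a `×p, ×q` invariant measure -/
lemma mp_pow {p q : ℕ} {μ : Measure UnitAddCircle}
    (hp : MeasurePreserving (fun x : UnitAddCircle => p • x) μ μ)
    (hq : MeasurePreserving (fun x : UnitAddCircle => q • x) μ μ) (i j : ℕ) :
    MeasurePreserving (fun x : UnitAddCircle => (p ^ i * q ^ j) • x) μ μ := by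
  have h1 : ∀ (r : ℕ), MeasurePreserving (fun x : UnitAddCircle => r • x) μ μ → ∀ i : ℕ,
      MeasurePreserving (fun x : UnitAddCircle => (r ^ i) • x) μ μ := by
    intro r hr i
    induction i with
    | zero =>
      have e : (fun x : UnitAddCircle => (r ^ 0) • x) = id := by
        funext x; simp
      rw [e]; exact MeasurePreserving.id μ
    | succ i ih =>
      have := hr.comp ih
      have e : (fun x : UnitAddCircle => (r ^ (i + 1)) • x) =
          (fun x : UnitAddCircle => r • x) ∘ (fun x : UnitAddCircle => (r ^ i) • x) := by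
        funext x
        simp only [Function.comp]
        rw [pow_succ', mul_nsmul']
      rw [e]; exact this
  have h2 := (h1 p hp i).comp (h1 q hq j)
  have e : (fun x : UnitAddCircle => (p ^ i * q ^ j) • x) =
      (fun x : UnitAddCircle => (p ^ i) • x) ∘ (fun x : UnitAddCircle => (q ^ j) • x) := by
    funext x
    simp only [Function.comp]
    rw [mul_nsmul']
  rw [e]; exact h2

/-- a measure dominated by the translate of an invariant measure -/
lemma integral_le_of_le_map {μ K : Measure UnitAddCircle} [IsFiniteMeasure μ] {α : UnitAddCircle}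
    (hK : K ≤ μ.map (fun x => x + α)) {n : ℕ}
    (hn : MeasurePreserving (fun x : UnitAddCircle => n • x) μ μ)
    {f : UnitAddCircle → ℝ} (hf : Continuous f) (hf0 : ∀ x, 0 ≤ f x) (hf1 : ∀ x, f x ≤ 1) :
    ∫ x, f (n • x) ∂K ≤ ∫ x, f (x + n • α) ∂μ := by
  have ht : Continuous fun x : UnitAddCircle => x + α := continuous_id.add continuous_const
  have h1 : ∫ x, f (n • x) ∂K ≤ ∫ x, f (n • x) ∂(μ.map (fun x => x + α)) := by
    have : IsFiniteMeasure (μ.map (fun x => x + α)) := Measure.isFiniteMeasure_map _ _
    refine integral_mono_measure hK (Eventually.of_forall fun x => hf0 _) ?_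
    refine Integrable.of_bound (hf.comp (cont_mul n)).aestronglyMeasurable 1
        (Eventually.of_forall fun x => by
          rw [Real.norm_eq_abs, abs_of_nonneg (hf0 _)]; exact hf1 _)
  have h2 : ∫ x, f (n • x) ∂(μ.map (fun x => x + α)) = ∫ x, f (n • (x + α)) ∂μ :=
    integral_map ht.measurable.aemeasurable (hf.comp (cont_mul n)).aestronglyMeasurable
  have h3 : ∫ x, f (n • (x + α)) ∂μ = ∫ x, f (x + n • α) ∂μ := by
    have h4 := integral_map (μ := μ) (cont_mul n).measurable.aemeasurable
      (f := fun x => f (x + n • α))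
      (hf.comp (continuous_id.add continuous_const)).aestronglyMeasurable
    rw [hn.map_eq] at h4
    rw [h4]
    simp only [nsmul_add]
  rw [← h3, ← h2]
  exact h1

/-- **Translates by elements of infinite order.** -/
theorem singular_of_not_isOfFinAddOrder {p q : ℕ} (hp : 2 ≤ p) (hq : 2 ≤ q)
    (hirr : Irrational (Real.log p / Real.log q)) {μ ν : Measure UnitAddCircle}
    [IsProbabilityMeasure μ] [IsFiniteMeasure ν]
    (hpμ : MeasurePreserving (fun x : UnitAddCircle => p • x) μ μ)
    (hqμ : MeasurePreserving (fun x : UnitAddCircle => q • x) μ μ)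
    (hpν : MeasurePreserving (fun x : UnitAddCircle => p • x) ν ν)
    (hqν : MeasurePreserving (fun x : UnitAddCircle => q • x) ν ν)
    (hν : ν ⟂ₘ volume) {α : UnitAddCircle} (hα : ¬ IsOfFinAddOrder α) :
    μ.map (fun x => x + α) ⟂ₘ ν := by
  have ht : Continuous fun x : UnitAddCircle => x + α := continuous_id.add continuous_const
  have : IsFiniteMeasure (μ.map (fun x => x + α)) := Measure.isFiniteMeasure_map _ _
  rw [Measure.mutuallySingular_iff_disjoint, disjoint_iff_inf_le]
  set K : Measure UnitAddCircle := μ.map (fun x => x + α) ⊓ ν with hK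
  have hK1 : K ≤ μ.map (fun x => x + α) := inf_le_left
  have hK2 : K ≤ ν := inf_le_right
  have hKfin : IsFiniteMeasure K := isFiniteMeasure_of_le ν hK2
  have hK0 : K = 0 := by
    refine principle hK2 hν fun f hf hf0 hf1 ε hε => ?_
    obtain ⟨N, hN, δ, hδ, hR⟩ := riemann hf hε
    have hd := Pool.Agent.H847R3.XpXq.dense_orbit hp hq hirr hα
    have hch : ∀ j : ℕ, ∃ i k : ℕ,
        dist ((p ^ i * q ^ k) • α) (((j : ℝ) / N : ℝ) : UnitAddCircle) < δ := by
      intro j
      obtain ⟨w, ⟨i, k, rfl⟩, hw⟩ := hd.exists_dist_lt (((j : ℝ) / N : ℝ) : UnitAddCircle) hδ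
      exact ⟨i, k, by rwa [dist_comm]⟩
    choose i k hik using hch
    refine ⟨N, hN, fun j => p ^ i j * q ^ k j, fun j _ => mp_pow hpν hqν _ _, ?_⟩
    calc ∑ j ∈ Finset.range N, ∫ x, f ((p ^ i j * q ^ k j) • x) ∂K
        ≤ ∑ j ∈ Finset.range N, ∫ x, f (x + (p ^ i j * q ^ k j) • α) ∂μ :=
          Finset.sum_le_sum fun j _ =>
            integral_le_of_le_map hK1 (mp_pow hpμ hqμ _ _) hf hf0 hf1
      _ = ∫ x, ∑ j ∈ Finset.range N, f (x + (p ^ i j * q ^ k j) • α) ∂μ := by
          rw [integral_finsetSum]
          intro j _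
          refine Integrable.of_bound
            (hf.comp (continuous_id.add continuous_const)).aestronglyMeasurable 1
            (Eventually.of_forall fun x => by
              rw [Real.norm_eq_abs, abs_of_nonneg (hf0 _)]; exact hf1 _)
      _ ≤ ∫ _x, N * ((∫ x, f x) + ε) ∂μ := by
          apply integral_mono
          · apply integrable_finsetSum
            intro j _
            refine Integrable.of_bound
              (hf.comp (continuous_id.add continuous_const)).aestronglyMeasurable 1
              (Eventually.of_forall fun x => by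
                rw [Real.norm_eq_abs, abs_of_nonneg (hf0 _)]; exact hf1 _)
          · exact integrable_const _
          · intro x
            exact hR _ (fun j _ => hik j) x
      _ = N * ((∫ x, f x) + ε) := by simp
  rw [hK0]
  exact bot_le

end Pool.Agent.K3h72.Tr
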