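import Pool.Agent.K3h72.Tr.Core
import Pool.Agent.K3h72.Tr.A

/-!
Translates by elements of finite order.
-/

set_option autoImplicit false

open MeasureTheory Filter Topology
open scoped ENNReal

namespace Pool.Agent.K3h72.Tr

/-- the `p`-part of an integer -/
lemma exists_ppart (p : ℕ) : ∀ m : ℕ, 0 < m →
    ∃ a b e : ℕ, m = a * b ∧ a ∣ p ^ e ∧ Nat.Coprime b p := by
  intro m
  induction m using Nat.strong_induction_on with
  | _ m ih =>
    intro hm
    by_cases hc : Nat.Coprime m p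
    · exact ⟨1, m, 0, by simp, one_dvd _, hc⟩
    · have hd : 1 < Nat.gcd m p := by
        have h1 : 0 < Nat.gcd m p := Nat.gcd_pos_of_pos_left _ hm
        have h2 : Nat.gcd m p ≠ 1 := hc
        omega
      obtain ⟨m', hm'⟩ := Nat.gcd_dvd_left m p
      have hm'0 : 0 < m' := by
        rcases Nat.eq_zero_or_pos m' with rfl | h
        · simp at hm'; omega
        · exact h
      have hlt : m' < m := by
        conv_rhs => rw [hm']
        nlinarith
      obtain ⟨a, b, e, h1, h2, h3⟩ := ih m' hlt hm'0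
      refine ⟨Nat.gcd m p * a, b, e + 1, ?_, ?_, h3⟩
      · rw [mul_assoc, ← h1]; exact hm'
      · rw [pow_succ, mul_comm]
        exact mul_dvd_mul h2 (Nat.gcd_dvd_right m p)

/-- decomposition of an element of finite order whose order is not coprime to `p` -/
lemma exists_decomp {p : ℕ} {α : UnitAddCircle} (hα : IsOfFinAddOrder α)
    (hαp : ¬ (addOrderOf α).Coprime p) :
    ∃ (β γ : UnitAddCircle) (e t : ℕ), α = γ + β ∧ (p ^ e) • β = 0 ∧ β ≠ 0 ∧ t • γ = 0 ∧
      0 < t ∧ Nat.Coprime t p := by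
  have hm : 0 < addOrderOf α := hα.addOrderOf_pos
  obtain ⟨a, b, e, h1, h2, h3⟩ := exists_ppart p _ hm
  have hb : 0 < b := by
    rcases Nat.eq_zero_or_pos b with rfl | h
    · rw [mul_zero] at h1; omega
    · exact h
  have hcop : IsCoprime (a : ℤ) (b : ℤ) := by
    rw [Nat.isCoprime_iff_coprime]
    exact Nat.Coprime.coprime_dvd_left h2 (Nat.Coprime.pow_left e h3.symm)
  obtain ⟨x, y, hxy⟩ := hcop
  have hαm : ((a : ℤ) * b) • α = 0 := by
    have := addOrderOf_nsmul_eq_zero α
    rw [h1] at this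
    exact_mod_cast this
  have hβ : (a : ℤ) • ((y * b) • α) = 0 := by
    rw [smul_smul, show (a : ℤ) * (y * b) = y * (a * b) by ring, ← smul_smul, hαm, smul_zero]
  have hγ : (b : ℤ) • ((x * a) • α) = 0 := by
    rw [smul_smul, show (b : ℤ) * (x * a) = x * (a * b) by ring, ← smul_smul, hαm, smul_zero]
  refine ⟨(y * b) • α, (x * a) • α, e, b, ?_, ?_, ?_, ?_, hb, h3⟩
  · rw [← add_smul, hxy, one_smul]
  · obtain ⟨c, hc⟩ := h2
    rw [hc, mul_comm, mul_nsmul']
    have : a • ((y * b) • α) = 0 := by exact_mod_cast hβ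
    rw [this, nsmul_zero]
  · intro h0
    have h4 : α = (x * a) • α := by
      conv_lhs => rw [← one_smul ℤ α, ← hxy, add_smul, h0, add_zero]
    have h5 : b • α = 0 := by
      rw [h4]; exact_mod_cast hγ
    have h6 := addOrderOf_dvd_of_nsmul_eq_zero h5
    have h7 : addOrderOf α = b := Nat.dvd_antisymm h6 ⟨a, by rw [h1]; ring⟩
    rw [h7] at hαp
    exact hαp h3
  · exact_mod_cast hγ

lemma mp_pow_one {r : ℕ} {μ : Measure UnitAddCircle}
    (hr : MeasurePreserving (fun x : UnitAddCircle => r • x) μ μ) (i : ℕ) :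
    MeasurePreserving (fun x : UnitAddCircle => (r ^ i) • x) μ μ := by
  simpa using mp_pow hr hr i 0

/-- translates by elements fixed by a multiplication -/
lemma mp_translate {r : ℕ} {μ : Measure UnitAddCircle}
    (hr : MeasurePreserving (fun x : UnitAddCircle => r • x) μ μ) {γ : UnitAddCircle}
    (hγ : r • γ = γ) :
    MeasurePreserving (fun x : UnitAddCircle => r • x) (μ.map (fun x => x + γ))
      (μ.map (fun x => x + γ)) := by
  refine ⟨measurable_nsmul' r, ?_⟩
  rw [Measure.map_map (measurable_nsmul' r) (measurable_tr γ)]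
  conv_rhs => rw [← hr.map_eq]
  rw [Measure.map_map (measurable_tr γ) (measurable_nsmul' r)]
  congr 1
  funext x
  simp only [Function.comp, nsmul_add, hγ]

/-- **Torsion translates.** -/
theorem torsion {p q : ℕ} (hp : 2 ≤ p) (hq : 2 ≤ q) (hpq : Nat.Coprime p q) {k l m : ℕ}
    (hk : 1 ≤ k) (hl : 1 ≤ l) (hm : 1 ≤ m)
    {μ₁ μ₂ ν K : Measure UnitAddCircle} [IsFiniteMeasure μ₁] [IsFiniteMeasure μ₂]
    [IsProbabilityMeasure ν]
    (hpμ₁ : MeasurePreserving (fun x : UnitAddCircle => (p ^ k) • x) μ₁ μ₁)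
    (hpμ₂ : MeasurePreserving (fun x : UnitAddCircle => (p ^ l) • x) μ₂ μ₂)
    (hqν : MeasurePreserving (fun x : UnitAddCircle => (q ^ m) • x) ν ν)
    (hν : ν ⟂ₘ volume) {α : UnitAddCircle} (hα : IsOfFinAddOrder α)
    (hαp : ¬ (addOrderOf α).Coprime p)
    (hK1 : K ≤ μ₁) (hK2 : K ≤ μ₂.map (fun x => x + α)) (hK3 : K ≤ ν) : K = 0 := by
  obtain ⟨β, γ, e, t, rfl, hβ, hβ0, hγ, ht, htp⟩ := exists_decomp hα hαp
  set φ := Nat.totient t with hφ
  have hφ1 : 1 ≤ φ := Nat.totient_pos.2 ht
  -- the exponent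
  set E : ℕ := k * (l * (φ * (e + 1))) with hE
  have hE1 : 1 ≤ E := by
    rw [hE]
    exact Nat.mul_pos hk (Nat.mul_pos hl (Nat.mul_pos hφ1 (Nat.succ_pos e)))
  have hP : 2 ≤ p ^ E := le_trans hp (Nat.le_self_pow (by omega) p)
  have hQ : 2 ≤ q ^ m := le_trans hq (Nat.le_self_pow (by omega) q)
  have hPQ : Nat.Coprime (p ^ E) (q ^ m) := Nat.Coprime.pow E m hpq
  have h1 : MeasurePreserving (fun x : UnitAddCircle => (p ^ E) • x) μ₁ μ₁ := by
    have := mp_pow_one hpμ₁ (l * (φ * (e + 1)))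
    rwa [← pow_mul] at this
  have h2 : MeasurePreserving (fun x : UnitAddCircle => (p ^ E) • x) μ₂ μ₂ := by
    have := mp_pow_one hpμ₂ (k * (φ * (e + 1)))
    rw [← pow_mul] at this
    have e1 : l * (k * (φ * (e + 1))) = E := by rw [hE]; ring
    rwa [e1] at this
  have hγfix : (p ^ E) • γ = γ := by
    have h3 : (p ^ φ) • γ = γ := Pool.Agent.H847R3.XpXq.fix_of_coprime htp.symm hγ
    have h4 : ∀ n : ℕ, ((p ^ φ) ^ n) • γ = γ := by
      intro n
      induction n with
      | zero => simp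
      | succ n ih => rw [pow_succ, mul_nsmul', h3, ih]
    have e1 : E = φ * (k * l * (e + 1)) := by rw [hE]; ring
    rw [e1, pow_mul]
    exact h4 _
  have hβE : (p ^ E) • β = 0 := by
    have h3 : e ≤ E := by
      have h5 : 1 ≤ k * l * φ := Nat.mul_pos (Nat.mul_pos hk hl) hφ1
      have h6 : E = k * l * φ * (e + 1) := by rw [hE]; ring
      rw [h6]
      nlinarith
    obtain ⟨d, hd⟩ := Nat.exists_eq_add_of_le h3
    rw [hd, pow_add, mul_comm, mul_nsmul', hβ, nsmul_zero]
  have h2' := mp_translate h2 hγfix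
  have : IsFiniteMeasure (μ₂.map (fun x => x + γ)) := Measure.isFiniteMeasure_map _ _
  refine core hP hQ hPQ h1 h2' (fun j => mp_pow_one hqν j) hν hβE hβ0 hK1 ?_ hK3
  rw [Measure.map_map (measurable_tr β) (measurable_tr γ)]
  have e2 : ((fun x : UnitAddCircle => x + β) ∘ fun x => x + γ) = fun x => x + (γ + β) := by
    funext x
    simp only [Function.comp]
    abel
  rw [e2]
  exact hK2

/-- coprime integers are multiplicatively independent -/
lemma irr_of_coprime {p q : ℕ} (hp : 2 ≤ p) (hq : 2 ≤ q) (hpq : Nat.Coprime p q) :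
    Irrational (Real.log (p : ℝ) / Real.log (q : ℝ)) := by
  rintro ⟨r, hr⟩
  have hlp : 0 < Real.log p := Real.log_pos (by exact_mod_cast (by omega : 1 < p))
  have hlq : 0 < Real.log q := Real.log_pos (by exact_mod_cast (by omega : 1 < q))
  have hr0 : (0 : ℝ) < r := by rw [hr]; positivity
  have hr0' : 0 < r := by exact_mod_cast hr0
  have hnum : 0 < r.num := Rat.num_pos.2 hr0'
  obtain ⟨n, hn⟩ := Int.eq_ofNat_of_zero_le hnum.le
  have hden : 0 < r.den := r.den_pos
  have h1 : (r : ℝ) = (n : ℝ) / r.den := by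
    have := Rat.cast_def (K := ℝ) r
    rw [this, hn]; simp
  rw [h1] at hr
  have h2 : (r.den : ℝ) * Real.log p = n * Real.log q := by
    have hd : (r.den : ℝ) ≠ 0 := by positivity
    field_simp at hr
    linarith
  have h3 : ((p ^ r.den : ℕ) : ℝ) = ((q ^ n : ℕ) : ℝ) := by
    push_cast
    rw [← Real.log_pow, ← Real.log_pow] at h2
    exact Real.log_injOn_pos (Set.mem_Ioi.2 (by positivity)) (Set.mem_Ioi.2 (by positivity)) h2
  have h4 : p ^ r.den = q ^ n := by exact_mod_cast h3
  have h5 : p ∣ q ^ n := by rw [← h4]; exact dvd_pow_self p hden.ne'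
  have h6 : Nat.Coprime p (q ^ n) := Nat.Coprime.pow_right n hpq
  have h7 := Nat.Coprime.eq_one_of_dvd h6 h5
  omega

/-- **Translates of jointly invariant measures.** -/
theorem translate_singular {p q : ℕ} (hp : 2 ≤ p) (hq : 2 ≤ q) (hpq : Nat.Coprime p q)
    {μ ν : Measure UnitAddCircle} [IsProbabilityMeasure μ] [IsProbabilityMeasure ν]
    (hpμ : MeasurePreserving (fun x : UnitAddCircle => p • x) μ μ)
    (hqμ : MeasurePreserving (fun x : UnitAddCircle => q • x) μ μ)
    (hpν : MeasurePreserving (fun x : UnitAddCircle => p • x) ν ν)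
    (hqν : MeasurePreserving (fun x : UnitAddCircle => q • x) ν ν)
    (hν : ν ⟂ₘ volume) {α : UnitAddCircle}
    (hα : ¬ (IsOfFinAddOrder α ∧ (addOrderOf α).Coprime (p * q))) :
    μ.map (fun x => x + α) ⟂ₘ ν := by
  by_cases hfin : IsOfFinAddOrder α
  · have h1 : ¬ (addOrderOf α).Coprime (p * q) := fun h => hα ⟨hfin, h⟩
    have hfm : IsFiniteMeasure (μ.map (fun x => x + α)) := Measure.isFiniteMeasure_map _ _
    rw [Measure.mutuallySingular_iff_disjoint, disjoint_iff_inf_le]
    have hK2 : μ.map (fun x => x + α) ⊓ ν ≤ μ.map (fun x => x + α) := inf_le_left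
    have hK3 : μ.map (fun x => x + α) ⊓ ν ≤ ν := inf_le_right
    have hK0 : μ.map (fun x => x + α) ⊓ ν = 0 := by
      rw [Nat.coprime_mul_iff_right, not_and_or] at h1
      rcases h1 with h1 | h1
      · exact torsion hp hq hpq le_rfl le_rfl le_rfl (by simpa using hpν) (by simpa using hpμ)
          (by simpa using hqν) hν hfin h1 hK3 hK2 hK3
      · exact torsion hq hp hpq.symm le_rfl le_rfl le_rfl (by simpa using hqν) (by simpa using hqμ)
          (by simpa using hpν) hν hfin h1 hK3 hK2 hK3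
    rw [hK0]
    exact bot_le
  · exact singular_of_not_isOfFinAddOrder hp hq (irr_of_coprime hp hq hpq) hpμ hqμ hpν hqν hν hfin

end Pool.Agent.K3h72.Tr
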