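import Pool.Agent.K3h72.Tr.B

/-!
Jointly ergodic measures are equal or singular; the translates of totally ergodic measures.
-/

set_option autoImplicit false

open MeasureTheory Filter Topology
open scoped ENNReal

namespace Pool.Agent.K3h72.Tr

/-- ergodicity of the joint action -/
def JErg (p q : ℕ) (μ : Measure UnitAddCircle) : Prop :=
  ∀ E : Set UnitAddCircle, MeasurableSet E → (fun x : UnitAddCircle => p • x) ⁻¹' E = E →
    (fun x : UnitAddCircle => q • x) ⁻¹' E = E → μ E = 0 ∨ μ E = 1

/-- jointly ergodic invariant measures are equal or mutually singular -/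
theorem eq_or_singular {p q : ℕ} {μ ν : Measure UnitAddCircle} [IsProbabilityMeasure μ]
    [IsProbabilityMeasure ν]
    (hpμ : MeasurePreserving (fun x : UnitAddCircle => p • x) μ μ)
    (hqμ : MeasurePreserving (fun x : UnitAddCircle => q • x) μ μ)
    (hpν : MeasurePreserving (fun x : UnitAddCircle => p • x) ν ν)
    (hqν : MeasurePreserving (fun x : UnitAddCircle => q • x) ν ν)
    (hμ : JErg p q μ) (hν : JErg p q ν) : μ = ν ∨ μ ⟂ₘ ν := by
  set ω : Measure UnitAddCircle := μ + ν with hω
  have hadd : ∀ n : ℕ, MeasurePreserving (fun x : UnitAddCircle => n • x) μ μ →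
      MeasurePreserving (fun x : UnitAddCircle => n • x) ν ν →
      MeasurePreserving (fun x : UnitAddCircle => n • x) ω ω := by
    intro n h1 h2
    refine ⟨measurable_nsmul' n, ?_⟩
    rw [hω, Measure.map_add _ _ (measurable_nsmul' n), h1.map_eq, h2.map_eq]
  set r := μ.rnDeriv ω with hr
  have hrm : Measurable r := Measure.measurable_rnDeriv _ _
  have hμω : μ ≤ ω := Measure.le_add_right le_rfl
  have hld : μ.HaveLebesgueDecomposition ω := Measure.haveLebesgueDecomposition_of_sigmaFinite μ ω
  have hd : ω.withDensity r = μ :=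
    Measure.withDensity_rnDeriv_eq _ _ (Measure.absolutelyContinuous_of_le hμω)
  have hinv : ∀ i j : ℕ, ∀ᵐ x ∂ω, r ((p ^ i * q ^ j) • x) = r x := fun i j =>
    MeasurePreserving.rnDeriv_comp_aeEq (mp_pow hpμ hqμ i j)
      (hadd _ (mp_pow hpμ hqμ i j) (mp_pow hpν hqν i j))
  set E : Set UnitAddCircle := {x | r x ≤ 1 / 2} with hE
  have hEm : MeasurableSet E := measurableSet_le hrm measurable_const
  set E' : Set UnitAddCircle :=
    ⋃ N : ℕ, ⋂ i : ℕ, ⋂ j : ℕ, {x | N ≤ i → N ≤ j → (p ^ i * q ^ j) • x ∈ E} with hE'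
  have hE'm : MeasurableSet E' := by
    refine MeasurableSet.iUnion fun N => MeasurableSet.iInter fun i => MeasurableSet.iInter
      fun j => ?_
    by_cases h1 : N ≤ i
    · by_cases h2 : N ≤ j
      · have : {x : UnitAddCircle | N ≤ i → N ≤ j → (p ^ i * q ^ j) • x ∈ E} =
            (fun x : UnitAddCircle => (p ^ i * q ^ j) • x) ⁻¹' E := by
          ext x; simp [h1, h2]
        rw [this]
        exact measurable_nsmul' _ hEm
      · have : {x : UnitAddCircle | N ≤ i → N ≤ j → (p ^ i * q ^ j) • x ∈ E} = Set.univ := by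
          ext x; simp [h2]
        rw [this]; exact MeasurableSet.univ
    · have : {x : UnitAddCircle | N ≤ i → N ≤ j → (p ^ i * q ^ j) • x ∈ E} = Set.univ := by
        ext x; simp [h1]
      rw [this]; exact MeasurableSet.univ
  have hmem : ∀ x, x ∈ E' ↔ ∃ N : ℕ, ∀ i j : ℕ, N ≤ i → N ≤ j → (p ^ i * q ^ j) • x ∈ E := by
    intro x
    simp only [hE', Set.mem_iUnion, Set.mem_iInter, Set.mem_ofPred_eq]
  have hp' : (fun x : UnitAddCircle => p • x) ⁻¹' E' = E' := by
    ext x
    rw [Set.mem_preimage, hmem, hmem]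
    constructor
    · rintro ⟨N, hN⟩
      refine ⟨N + 1, fun i j hi hj => ?_⟩
      obtain ⟨i', rfl⟩ : ∃ i', i = i' + 1 := ⟨i - 1, by omega⟩
      have := hN i' j (by omega) (by omega)
      rw [← mul_nsmul'] at this
      have e1 : p ^ (i' + 1) * q ^ j = p ^ i' * q ^ j * p := by ring
      rwa [e1]
    · rintro ⟨N, hN⟩
      refine ⟨N, fun i j hi hj => ?_⟩
      have := hN (i + 1) j (by omega) hj
      rw [← mul_nsmul']
      have e1 : p ^ (i + 1) * q ^ j = p ^ i * q ^ j * p := by ring
      rwa [e1] at this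
  have hq' : (fun x : UnitAddCircle => q • x) ⁻¹' E' = E' := by
    ext x
    rw [Set.mem_preimage, hmem, hmem]
    constructor
    · rintro ⟨N, hN⟩
      refine ⟨N + 1, fun i j hi hj => ?_⟩
      obtain ⟨j', rfl⟩ : ∃ j', j = j' + 1 := ⟨j - 1, by omega⟩
      have := hN i j' (by omega) (by omega)
      rw [← mul_nsmul'] at this
      have e1 : p ^ i * q ^ (j' + 1) = p ^ i * q ^ j' * q := by ring
      rwa [e1]
    · rintro ⟨N, hN⟩
      refine ⟨N, fun i j hi hj => ?_⟩
      have := hN i (j + 1) hi (by omega)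
      rw [← mul_nsmul']
      have e1 : p ^ i * q ^ (j + 1) = p ^ i * q ^ j * q := by ring
      rwa [e1] at this
  have hEE' : E' =ᵐ[ω] E := by
    have h1 : ∀ᵐ x ∂ω, ∀ i j : ℕ, r ((p ^ i * q ^ j) • x) = r x :=
      ae_all_iff.2 fun i => ae_all_iff.2 fun j => hinv i j
    filter_upwards [h1] with x hx
    have h2 : x ∈ E' ↔ x ∈ E := by
      rw [hmem]
      constructor
      · rintro ⟨N, hN⟩
        have h3 := hN N N le_rfl le_rfl
        simp only [hE, Set.mem_ofPred_eq] at h3 ⊢
        rwa [hx] at h3
      · intro h3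
        refine ⟨0, fun i j _ _ => ?_⟩
        simp only [hE, Set.mem_ofPred_eq] at h3 ⊢
        rwa [hx]
    exact propext h2
  have hμE : μ E' = μ E :=
    measure_congr (hEE'.filter_mono (Measure.absolutelyContinuous_of_le hμω).ae_le)
  have hνω : ν ≤ ω := Measure.le_add_left le_rfl
  have hνE : ν E' = ν E :=
    measure_congr (hEE'.filter_mono (Measure.absolutelyContinuous_of_le hνω).ae_le)
  have hhalf : ∀ a b : ℝ≥0∞, a ≠ ⊤ → a ≤ 1 / 2 * (a + b) → a ≤ b := by
    intro a b ha h
    have h1 : 2 * a ≤ a + b := by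
      calc 2 * a ≤ 2 * (1 / 2 * (a + b)) := by gcongr
        _ = a + b := by
          rw [← mul_assoc, one_div, ENNReal.mul_inv_cancel (by simp) (by simp), one_mul]
    rw [two_mul] at h1
    exact (ENNReal.add_le_add_iff_left ha).1 h1
  have hhalf' : ∀ a b : ℝ≥0∞, a ≠ ⊤ → 1 / 2 * (b + a) ≤ b → a ≤ b := by
    intro a b ha h
    rcases eq_or_ne b ⊤ with rfl | hb
    · exact le_top
    have h1 : b + a ≤ 2 * b := by
      calc b + a = 2 * (1 / 2 * (b + a)) := by
            rw [← mul_assoc, one_div, ENNReal.mul_inv_cancel (by simp) (by simp), one_mul]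
        _ ≤ 2 * b := by gcongr
    rw [two_mul] at h1
    exact (ENNReal.add_le_add_iff_left hb).1 h1
  have c1 : ∀ A : Set UnitAddCircle, MeasurableSet A → A ⊆ E → μ A ≤ ν A := by
    intro A hA hAE
    apply hhalf _ _ (measure_ne_top _ _)
    calc μ A = ∫⁻ x in A, r x ∂ω := by
          conv_lhs => rw [← hd]
          rw [withDensity_apply _ hA]
      _ ≤ ∫⁻ x in A, 1 / 2 ∂ω := setLIntegral_mono measurable_const fun x hx => hAE hx
      _ = 1 / 2 * (μ A + ν A) := by
          rw [setLIntegral_const, hω, Measure.add_apply]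
  have c2 : ∀ A : Set UnitAddCircle, MeasurableSet A → A ⊆ Eᶜ → ν A ≤ μ A := by
    intro A hA hAE
    apply hhalf' _ _ (measure_ne_top _ _)
    calc 1 / 2 * (μ A + ν A) = ∫⁻ x in A, 1 / 2 ∂ω := by
          rw [setLIntegral_const, hω, Measure.add_apply]
      _ ≤ ∫⁻ x in A, r x ∂ω := setLIntegral_mono hrm fun x hx =>
          (not_le.1 (show ¬ r x ≤ 1 / 2 from hAE hx)).le
      _ = μ A := by
          conv_rhs => rw [← hd]
          rw [withDensity_apply _ hA]
  have h0 := hμ E' hE'm hp' hq'
  have h1 := hν E' hE'm hp' hq'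
  rw [hμE] at h0
  rw [hνE] at h1
  rcases h0 with h0 | h0
  · rcases h1 with h1 | h1
    · left
      have hle : ν ≤ μ := by
        rw [Measure.le_iff]
        intro A hA
        calc ν A ≤ ν (A ∩ Eᶜ) + ν E := by
              refine (measure_mono ?_).trans (measure_union_le _ _)
              intro x hx
              by_cases hxE : x ∈ E
              · exact Or.inr hxE
              · exact Or.inl ⟨hx, hxE⟩
          _ = ν (A ∩ Eᶜ) := by rw [h1, add_zero]
          _ ≤ μ (A ∩ Eᶜ) := c2 _ (hA.inter hEm.compl) Set.inter_subset_right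
          _ ≤ μ A := measure_mono Set.inter_subset_left
      exact (Measure.eq_of_le_of_measure_univ_eq hle (by simp)).symm
    · right
      exact ⟨E, hEm, h0, by rw [prob_compl_eq_zero_iff hEm]; exact h1⟩
  · left
    have hE1 : μ Eᶜ = 0 := by rw [prob_compl_eq_zero_iff hEm]; exact h0
    have hle : μ ≤ ν := by
      rw [Measure.le_iff]
      intro A hA
      calc μ A ≤ μ (A ∩ E) + μ Eᶜ := by
            refine (measure_mono ?_).trans (measure_union_le _ _)
            intro x hx
            by_cases hxE : x ∈ E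
            · exact Or.inl ⟨hx, hxE⟩
            · exact Or.inr hxE
        _ = μ (A ∩ E) := by rw [hE1, add_zero]
        _ ≤ ν (A ∩ E) := c1 _ (hA.inter hEm) Set.inter_subset_right
        _ ≤ ν A := measure_mono Set.inter_subset_left
    exact Measure.eq_of_le_of_measure_univ_eq hle (by simp)

lemma mp_volume {n : ℕ} (hn : 2 ≤ n) :
    MeasurePreserving (fun x : UnitAddCircle => n • x) volume volume :=
  (AddCircle.ergodic_nsmul (T := 1) (by omega : 1 < n)).toMeasurePreserving

lemma jerg_volume {p : ℕ} (hp : 2 ≤ p) (q : ℕ) : JErg p q (volume : Measure UnitAddCircle) := by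
  intro E hE hEp _
  have h := AddCircle.ergodic_nsmul (T := 1) (by omega : 1 < p)
  have : IsProbabilityMeasure (volume : Measure UnitAddCircle) := ⟨UnitAddCircle.measure_univ⟩
  exact h.toPreErgodic.prob_eq_zero_or_one hE hEp

/-- singularity to Lebesgue measure is preserved by translations -/
lemma singular_translate {μ : Measure UnitAddCircle} (h : μ ⟂ₘ volume) (α : UnitAddCircle) :
    μ.map (fun x => x + α) ⟂ₘ volume := by
  obtain ⟨s, hs, h1, h2⟩ := h
  have hm : MeasurableSet ((fun x : UnitAddCircle => x + -α) ⁻¹' s) := measurable_tr _ hs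
  refine ⟨(fun x => x + -α) ⁻¹' s, hm, ?_, ?_⟩
  · rw [Measure.map_apply (measurable_tr α) hm, ← Set.preimage_comp]
    have : ((fun x : UnitAddCircle => x + -α) ∘ fun x => x + α) = id := by
      funext x; simp
    rw [this]; exact h1
  · rw [← Set.preimage_compl]
    have := (measurePreserving_add_right (volume : Measure UnitAddCircle) (-α)).measure_preimage
      hs.compl.nullMeasurableSet
    rw [this]; exact h2

lemma jerg_translate {p q : ℕ} {μ : Measure UnitAddCircle} (h : JErg p q μ) {α : UnitAddCircle}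
    (hp : p • α = α) (hq : q • α = α) : JErg p q (μ.map (fun x => x + α)) := by
  intro E hE hEp hEq
  rw [Measure.map_apply (measurable_tr α) hE]
  refine h _ (measurable_tr α hE) ?_ ?_
  · ext x
    simp only [Set.mem_preimage]
    have h1 : p • x + α = p • (x + α) := by rw [nsmul_add, hp]
    rw [h1]
    conv_rhs => rw [← hEp]
    rfl
  · ext x
    simp only [Set.mem_preimage]
    have h1 : q • x + α = q • (x + α) := by rw [nsmul_add, hq]
    rw [h1]
    conv_rhs => rw [← hEq]
    rfl

/-- total ergodicity of the joint action -/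
def TErg (p q : ℕ) (μ : Measure UnitAddCircle) : Prop :=
  ∀ k : ℕ, 1 ≤ k → JErg (p ^ k) (q ^ k) μ

/-- **Translates of totally ergodic measures.** -/
theorem dichotomy {p q : ℕ} (hp : 2 ≤ p) (hq : 2 ≤ q) (hpq : Nat.Coprime p q)
    {μ ν : Measure UnitAddCircle} [IsProbabilityMeasure μ] [IsProbabilityMeasure ν]
    (hpμ : MeasurePreserving (fun x : UnitAddCircle => p • x) μ μ)
    (hqμ : MeasurePreserving (fun x : UnitAddCircle => q • x) μ μ)
    (hpν : MeasurePreserving (fun x : UnitAddCircle => p • x) ν ν)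
    (hqν : MeasurePreserving (fun x : UnitAddCircle => q • x) ν ν)
    (hμ : TErg p q μ) (hν : TErg p q ν) (α : UnitAddCircle) :
    μ.map (fun x => x + α) = ν ∨ μ.map (fun x => x + α) ⟂ₘ ν := by
  have hpv := mp_volume hp
  have hqv := mp_volume hq
  have hprob : IsProbabilityMeasure (volume : Measure UnitAddCircle) :=
    ⟨UnitAddCircle.measure_univ⟩
  have h1 : ∀ ρ : Measure UnitAddCircle, TErg p q ρ → JErg p q ρ := by
    intro ρ hρ
    have := hρ 1 le_rfl
    simpa using this
  rcases eq_or_singular hpν hqν hpv hqv (h1 ν hν) (jerg_volume hp q) with hv | hv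
  · subst hv
    rcases eq_or_singular hpμ hqμ hpv hqv (h1 μ hμ) (jerg_volume hp q) with hm | hm
    · subst hm
      left
      exact (measurePreserving_add_right (volume : Measure UnitAddCircle) α).map_eq
    · right
      exact singular_translate hm α
  · by_cases hα : IsOfFinAddOrder α ∧ (addOrderOf α).Coprime (p * q)
    · obtain ⟨hfin, hco⟩ := hα
      set t := addOrderOf α with ht
      have ht0 : 0 < t := hfin.addOrderOf_pos
      set k := Nat.totient t with hk
      have hk1 : 1 ≤ k := Nat.totient_pos.2 ht0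
      have htα : t • α = 0 := addOrderOf_nsmul_eq_zero α
      rw [Nat.coprime_mul_iff_right] at hco
      have hpα : (p ^ k) • α = α := Pool.Agent.H847R3.XpXq.fix_of_coprime hco.1.symm htα
      have hqα : (q ^ k) • α = α := Pool.Agent.H847R3.XpXq.fix_of_coprime hco.2.symm htα
      have hpr : IsProbabilityMeasure (μ.map (fun x => x + α)) :=
        Measure.isProbabilityMeasure_map (measurable_tr α).aemeasurable
      exact eq_or_singular (mp_translate (mp_pow_one hpμ k) hpα)
        (mp_translate (mp_pow_one hqμ k) hqα) (mp_pow_one hpν k) (mp_pow_one hqν k)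
        (jerg_translate (hμ k hk1) hpα hqα) (hν k hk1)
    · right
      exact translate_singular hp hq hpq hpμ hqμ hpν hqν hv hα

end Pool.Agent.K3h72.Tr
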