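import Pool.Agent.K3h72.Tr.Nt

/-!
Exponential sums over the cosets of the subgroup of order `P` of the circle.
-/

set_option autoImplicit false

open Finset

namespace Pool.Agent.K3h72.Tr

/-- the point `1 / P` of the circle -/
noncomputable def hh (P : ℕ) : UnitAddCircle := ((1 / P : ℝ) : UnitAddCircle)

instance fact01 : Fact ((0 : ℝ) < 1) := ⟨one_pos⟩

lemma addOrderOf_hh {P : ℕ} (hP : 0 < P) : addOrderOf (hh P) = P :=
  AddCircle.addOrderOf_period_div (p := (1 : ℝ)) hP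

lemma nsmul_hh {P : ℕ} (hP : 0 < P) : P • hh P = 0 := by
  conv_lhs => rw [← addOrderOf_hh hP]
  rw [addOrderOf_hh hP]
  have := addOrderOf_nsmul_eq_zero (hh P)
  rwa [addOrderOf_hh hP] at this

lemma nsmul_hh_mul {a b : ℕ} (ha : 0 < a) (hb : 0 < b) : a • hh (a * b) = hh b := by
  unfold hh
  rw [← AddCircle.coe_nsmul, nsmul_eq_mul]
  congr 1
  have : (a : ℝ) ≠ 0 := by positivity
  have : (b : ℝ) ≠ 0 := by positivity
  push_cast
  field_simp

lemma exists_eq_nsmul_hh {P : ℕ} (hP : 0 < P) {x : UnitAddCircle} (hx : P • x = 0) :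
    ∃ i < P, x = i • hh P := by
  obtain ⟨m, hm, h⟩ := (AddCircle.nsmul_eq_zero_iff hP).1 hx
  refine ⟨m, hm, ?_⟩
  rw [← h]
  unfold hh
  rw [← AddCircle.coe_nsmul, nsmul_eq_mul]
  congr 1
  ring

lemma fourier_add' (a : ℤ) (x y : UnitAddCircle) :
    (fourier a (x + y) : ℂ) = fourier a x * fourier a y := by
  rw [fourier_apply, fourier_apply, fourier_apply, smul_add, AddCircle.toCircle_add]
  simp

lemma fourier_nsmul' (a : ℤ) (x : UnitAddCircle) (i : ℕ) :
    (fourier a (i • x) : ℂ) = (fourier a x) ^ i := by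
  induction i with
  | zero => simp
  | succ i ih => rw [succ_nsmul, fourier_add', ih, pow_succ]

lemma fourier_norm (a : ℤ) (x : UnitAddCircle) : ‖(fourier a x : ℂ)‖ = 1 := by
  rw [fourier_apply]; simp

lemma geom {P : ℕ} (hP : 0 < P) (a : ℤ) :
    ‖∑ i ∈ range P, (fourier a (i • hh P) : ℂ)‖ ≤ if (P : ℤ) ∣ a then (P : ℝ) else 0 := by
  split_ifs with h
  · refine (norm_sum_le _ _).trans ?_
    simp [fourier_norm]
  · have h1 : (fourier a (hh P) : ℂ) ≠ 1 := by
      intro h2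
      apply h
      have h3 : AddCircle.toCircle (a • hh P) = AddCircle.toCircle (0 : UnitAddCircle) := by
        rw [fourier_apply] at h2
        rw [AddCircle.toCircle_zero]
        exact Circle.coe_injective (by rw [h2]; simp)
      have h4 := AddCircle.injective_toCircle one_ne_zero h3
      have h5 := addOrderOf_dvd_iff_zsmul_eq_zero.2 h4
      rwa [addOrderOf_hh hP] at h5
    have h6 : ∑ i ∈ range P, (fourier a (i • hh P) : ℂ) = 0 := by
      simp_rw [fourier_nsmul']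
      have h7 := mul_geom_sum (fourier a (hh P) : ℂ) P
      rw [← fourier_nsmul', nsmul_hh hP] at h7
      have h8 : (fourier a (0 : UnitAddCircle) : ℂ) - 1 = 0 := by simp
      rw [h8] at h7
      exact (mul_eq_zero.1 h7).resolve_left (sub_ne_zero.2 h1)
    rw [h6, norm_zero]

open Classical in
lemma sq_sum_le {N P : ℕ} (hP : 0 < P) (a : ℕ → ℤ) (x : UnitAddCircle) :
    ∑ i ∈ range P, ‖∑ j ∈ range N, (fourier (a j) (x + i • hh P) : ℂ)‖ ^ 2 ≤
      ∑ j ∈ range N, ∑ l ∈ range N, if (P : ℤ) ∣ a j - a l then (P : ℝ) else 0 := by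
  have h1 : ∀ z : ℂ, ((‖z‖ ^ 2 : ℝ) : ℂ) = z * (starRingEnd ℂ) z := by
    intro z; rw [Complex.mul_conj, Complex.normSq_eq_norm_sq]
  have h2 : ((∑ i ∈ range P, ‖∑ j ∈ range N, (fourier (a j) (x + i • hh P) : ℂ)‖ ^ 2 : ℝ) : ℂ) =
      ∑ j ∈ range N, ∑ l ∈ range N, (fourier (a j - a l) x : ℂ) *
        ∑ i ∈ range P, (fourier (a j - a l) (i • hh P) : ℂ) := by
    rw [Complex.ofReal_sum]
    simp_rw [h1, map_sum, sum_mul_sum]
    rw [sum_comm]
    apply sum_congr rfl
    intro j _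
    rw [sum_comm]
    apply sum_congr rfl
    intro l _
    rw [mul_sum]
    apply sum_congr rfl
    intro i _
    rw [← fourier_add', sub_eq_add_neg, fourier_add, fourier_neg]
  have h3 : (0 : ℝ) ≤ ∑ i ∈ range P, ‖∑ j ∈ range N, (fourier (a j) (x + i • hh P) : ℂ)‖ ^ 2 := by
    positivity
  have h4 := congrArg norm h2
  rw [Complex.norm_real, Real.norm_eq_abs, abs_of_nonneg h3] at h4
  rw [h4]
  refine (norm_sum_le _ _).trans (sum_le_sum fun j _ => (norm_sum_le _ _).trans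
    (sum_le_sum fun l _ => ?_))
  rw [norm_mul, fourier_norm, one_mul]
  exact geom hP _

/-- the sums `∑_{j < p^n} e(k q^j x)` are bounded in `ℓ²` on the cosets -/
lemma sq_bound {p q : ℕ} (hp : 2 ≤ p) (hq : 2 ≤ q) (hpq : Nat.Coprime p q) {k : ℤ} (hk : k ≠ 0)
    (n : ℕ) (x : UnitAddCircle) :
    ∑ i ∈ range (p ^ n), ‖∑ j ∈ range (p ^ n),
      (fourier k ((q ^ j) • (x + i • hh (p ^ n))) : ℂ)‖ ^ 2 ≤
        2 * (DD p q k).natAbs * ((p ^ n : ℕ) : ℝ) ^ 2 := by
  classical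
  have hP : 0 < p ^ n := by positivity
  have h0 : ∀ (j : ℕ) (y : UnitAddCircle), (fourier k ((q ^ j) • y) : ℂ) =
      fourier (k * (q : ℤ) ^ j) y := by
    intro j y
    rw [fourier_apply, fourier_apply, ← natCast_zsmul, smul_smul]
    push_cast
    rfl
  simp_rw [h0]
  refine (sq_sum_le hP _ x).trans ?_
  have h1 : ∀ i ∈ range (p ^ n), ∑ l ∈ range (p ^ n),
      (if ((p ^ n : ℕ) : ℤ) ∣ k * (q : ℤ) ^ i - k * (q : ℤ) ^ l then ((p ^ n : ℕ) : ℝ) else 0) ≤
        2 * (DD p q k).natAbs * ((p ^ n : ℕ) : ℝ) := by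
    intro i hi
    rw [← sum_filter, sum_const, nsmul_eq_mul]
    apply mul_le_mul_of_nonneg_right _ (by positivity)
    have h2 : ((range (p ^ n)).filter fun l : ℕ =>
        ((p ^ n : ℕ) : ℤ) ∣ k * (q : ℤ) ^ i - k * (q : ℤ) ^ l).card ≤
        ((range (p ^ n)).filter fun l : ℕ =>
          ((p ^ n : ℕ) : ℤ) ∣ DD p q k * ((i : ℤ) - l)).card := by
      apply card_le_card
      intro l hl
      rw [mem_filter] at hl ⊢
      exact ⟨hl.1, dvd_sub_of_dvd hpq hl.2⟩
    have h3 := h2.trans (card_dvd_le hP (DD_ne hp hq hk) i (mem_range.1 hi))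
    exact_mod_cast h3
  refine (sum_le_sum h1).trans ?_
  rw [sum_const, card_range, nsmul_eq_mul]
  apply le_of_eq
  ring

end Pool.Agent.K3h72.Tr
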