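import Pool.Agent.K3h72.Tr.P
import Pool.Agent.K3h72.Tr.Ex

/-!
Equidistribution from decay of the square means of exponential sums.
-/

set_option autoImplicit false

open MeasureTheory Filter Topology Finset
open scoped ENNReal

namespace Pool.Agent.K3h72.Tr

/-- the exponential sum -/
noncomputable def SS (p q : ℕ) (k : ℤ) (n : ℕ) (x : UnitAddCircle) : ℂ :=
  ∑ j ∈ range (p ^ n), (fourier k ((q ^ j) • x) : ℂ)

lemma continuous_SS (p q : ℕ) (k : ℤ) (n : ℕ) : Continuous (SS p q k n) := by
  unfold SS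
  exact continuous_finsetSum _ fun j _ => (map_continuous _).comp (cont_mul _)

lemma norm_SS_le (p q : ℕ) (k : ℤ) (n : ℕ) (x : UnitAddCircle) :
    ‖SS p q k n x‖ ≤ ((p ^ n : ℕ) : ℝ) := by
  unfold SS
  refine (norm_sum_le _ _).trans ?_
  simp [fourier_norm]

/-- the normalised square of the exponential sum -/
noncomputable def sq (p q : ℕ) (k : ℤ) (n : ℕ) (x : UnitAddCircle) : ℝ :=
  ‖SS p q k n x‖ ^ 2 / ((p ^ n : ℕ) : ℝ) ^ 2

lemma sq_nonneg' (p q : ℕ) (k : ℤ) (n : ℕ) (x : UnitAddCircle) : 0 ≤ sq p q k n x := by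
  unfold sq; positivity

lemma continuous_sq (p q : ℕ) (k : ℤ) (n : ℕ) : Continuous (sq p q k n) := by
  unfold sq
  exact ((continuous_SS p q k n).norm.pow 2).div_const _

lemma sq_le_one {p : ℕ} (hp : 2 ≤ p) (q : ℕ) (k : ℤ) (n : ℕ) (x : UnitAddCircle) :
    sq p q k n x ≤ 1 := by
  unfold sq
  have h1 : (0 : ℝ) < ((p ^ n : ℕ) : ℝ) := by
    have : 0 < p ^ n := by positivity
    exact_mod_cast this
  rw [div_le_one (by positivity)]
  exact pow_le_pow_left₀ (norm_nonneg _) (norm_SS_le p q k n x) 2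

lemma sq_sum {p q : ℕ} (hp : 2 ≤ p) (hq : 2 ≤ q) (hpq : Nat.Coprime p q) {k : ℤ} (hk : k ≠ 0)
    (n : ℕ) (x : UnitAddCircle) :
    ∑ i ∈ range (p ^ n), sq p q k n (x + i • hh (p ^ n)) ≤ 2 * (DD p q k).natAbs := by
  unfold sq SS
  rw [← sum_div]
  have h1 : (0 : ℝ) < ((p ^ n : ℕ) : ℝ) := by
    have : 0 < p ^ n := by positivity
    exact_mod_cast this
  rw [div_le_iff₀ (by positivity)]
  exact sq_bound hp hq hpq hk n x

/-- averages of the images of a measure -/
noncomputable def Av (K : Measure UnitAddCircle) (p q : ℕ) (n : ℕ) (g : C(UnitAddCircle, ℂ)) : ℂ :=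
  (((p ^ n : ℕ) : ℂ))⁻¹ * ∑ j ∈ range (p ^ n), ∫ x, g ((q ^ j) • x) ∂K

lemma integrable_comp (K : Measure UnitAddCircle) [IsFiniteMeasure K] (m : ℕ)
    (g : C(UnitAddCircle, ℂ)) : Integrable (fun x => g (m • x)) K :=
  Integrable.of_bound (g.continuous.comp (cont_mul m)).aestronglyMeasurable ‖g‖
    (Eventually.of_forall fun x => g.norm_coe_le_norm _)

lemma Av_add (K : Measure UnitAddCircle) [IsFiniteMeasure K] (p q : ℕ) (n : ℕ)
    (g g' : C(UnitAddCircle, ℂ)) : Av K p q n (g + g') = Av K p q n g + Av K p q n g' := by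
  unfold Av
  rw [← mul_add, ← sum_add_distrib]
  congr 1
  apply sum_congr rfl
  intro j _
  rw [← integral_add (integrable_comp K _ g) (integrable_comp K _ g')]
  rfl

lemma Av_smul (K : Measure UnitAddCircle) (p q : ℕ) (n : ℕ) (c : ℂ)
    (g : C(UnitAddCircle, ℂ)) : Av K p q n (c • g) = c * Av K p q n g := by
  unfold Av
  rw [mul_left_comm]
  congr 1
  rw [mul_sum]
  apply sum_congr rfl
  intro j _
  rw [← integral_const_mul]
  rfl

lemma Av_norm_le (K : Measure UnitAddCircle) [IsFiniteMeasure K] {p : ℕ} (hp : 2 ≤ p) (q : ℕ)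
    (n : ℕ) (g : C(UnitAddCircle, ℂ)) : ‖Av K p q n g‖ ≤ K.real Set.univ * ‖g‖ := by
  unfold Av
  have h1 : (0 : ℝ) < ((p ^ n : ℕ) : ℝ) := by
    have : 0 < p ^ n := by positivity
    exact_mod_cast this
  rw [norm_mul, norm_inv, Complex.norm_natCast, inv_mul_le_iff₀ h1]
  refine (norm_sum_le _ _).trans ?_
  have h2 : ∀ j ∈ range (p ^ n), ‖∫ x, g ((q ^ j) • x) ∂K‖ ≤ K.real Set.univ * ‖g‖ := by
    intro j _
    rw [mul_comm]
    exact norm_integral_le_of_norm_le_const (Eventually.of_forall fun x => g.norm_coe_le_norm _)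
  refine (sum_le_sum h2).trans ?_
  simp

lemma integral_fourier_zero {k : ℤ} (hk : k ≠ 0) :
    ∫ x : UnitAddCircle, (fourier k x : ℂ) = 0 :=
  integral_eq_zero_of_add_right_eq_neg (fourier_add_half_inv_index hk one_pos)

/-- from square means to equidistribution -/
lemma tendsto_Av {p q : ℕ} (hp : 2 ≤ p) {K : Measure UnitAddCircle} [IsFiniteMeasure K]
    (h : ∀ k : ℤ, k ≠ 0 → Tendsto (fun n => ∫ x, sq p q k n x ∂K) atTop (𝓝 0))
    (g : C(UnitAddCircle, ℂ)) :
    Tendsto (fun n => Av K p q n g) atTop (𝓝 (K.real Set.univ * ∫ x, g x)) := by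
  set c := K.real Set.univ with hc
  have hc0 : 0 ≤ c := measureReal_nonneg
  have hvol : (volume : Measure UnitAddCircle).real Set.univ = 1 := by
    rw [Measure.real, UnitAddCircle.measure_univ]; simp
  have hint : ∀ g : C(UnitAddCircle, ℂ), Integrable g (volume : Measure UnitAddCircle) :=
    fun g => Integrable.of_bound g.continuous.aestronglyMeasurable ‖g‖
      (Eventually.of_forall fun x => g.norm_coe_le_norm _)
  let V : Submodule ℂ C(UnitAddCircle, ℂ) :=
    { carrier := {g | Tendsto (fun n => Av K p q n g) atTop (𝓝 (c * ∫ x, g x))}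
      add_mem' := by
        intro a b ha hb
        simp only [Set.mem_ofPred_eq] at ha hb ⊢
        have h1 : ∫ x, (a + b) x = (∫ x, a x) + ∫ x, b x := integral_add (hint a) (hint b)
        simp_rw [Av_add]
        rw [h1, mul_add]
        exact ha.add hb
      zero_mem' := by
        simp only [Set.mem_ofPred_eq]
        simp [Av]
      smul_mem' := by
        intro z a ha
        simp only [Set.mem_ofPred_eq] at ha ⊢
        have h1 : ∫ x, (z • a) x = z * ∫ x, a x := integral_const_mul z _
        simp_rw [Av_smul]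
        rw [h1, mul_left_comm]
        exact ha.const_mul z }
  have hspan : Submodule.span ℂ (Set.range (@fourier 1)) ≤ V := by
    rw [Submodule.span_le]
    rintro _ ⟨k, rfl⟩
    show Tendsto (fun n => Av K p q n (fourier k)) atTop (𝓝 (c * ∫ x, fourier k x))
    rcases eq_or_ne k 0 with rfl | hk
    · have h1 : ∀ n, Av K p q n (fourier 0) = c := by
        intro n
        have h2 : ((p ^ n : ℕ) : ℂ) ≠ 0 := by
          have : 0 < p ^ n := by positivity
          exact_mod_cast this.ne'
        unfold Av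
        simp only [fourier_zero, integral_const, sum_const, card_range, nsmul_eq_mul]
        rw [← mul_assoc, inv_mul_cancel₀ h2, one_mul, ← hc]
        simp
      have h2 : ∫ x : UnitAddCircle, (fourier 0 x : ℂ) = 1 := by
        simp [hvol]
      rw [h2, mul_one]
      simp_rw [h1]
      exact tendsto_const_nhds
    · rw [integral_fourier_zero hk, mul_zero]
      have h1 : ∀ n, Av K p q n (fourier k) = ∫ x, (((p ^ n : ℕ) : ℂ))⁻¹ * SS p q k n x ∂K := by
        intro n
        unfold Av SS
        rw [integral_const_mul, integral_finsetSum]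
        intro j _
        exact integrable_comp K _ _
      rw [Metric.tendsto_atTop]
      intro ε hε
      set δ : ℝ := ε / (2 * (c + 1)) with hδ
      have hδ0 : 0 < δ := by positivity
      have hh := h k hk
      rw [Metric.tendsto_atTop] at hh
      obtain ⟨n₀, hn₀⟩ := hh (δ * ε / 2) (by positivity)
      refine ⟨n₀, fun n hn => ?_⟩
      have h3 := hn₀ n hn
      rw [Real.dist_eq, sub_zero] at h3
      have h3' := (abs_lt.1 h3).2
      rw [dist_zero_right, h1]
      have hP : (0 : ℝ) < ((p ^ n : ℕ) : ℝ) := by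
        have : 0 < p ^ n := by positivity
        exact_mod_cast this
      have hsqi : Integrable (sq p q k n) K :=
        Integrable.of_bound (continuous_sq p q k n).aestronglyMeasurable 1
          (Eventually.of_forall fun x => by
            rw [Real.norm_eq_abs, abs_of_nonneg (sq_nonneg' p q k n x)]
            exact sq_le_one hp q k n x)
      have h4 : ∀ x, ‖(((p ^ n : ℕ) : ℂ))⁻¹ * SS p q k n x‖ ≤ δ + δ⁻¹ * sq p q k n x := by
        intro x
        rw [norm_mul, norm_inv, Complex.norm_natCast]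
        set t := (((p ^ n : ℕ) : ℝ))⁻¹ * ‖SS p q k n x‖ with ht
        have h5 : sq p q k n x = t ^ 2 := by
          rw [ht, sq, mul_pow, inv_pow, div_eq_inv_mul]
        rw [h5]
        have h6 : δ⁻¹ * t ^ 2 + δ - t = δ⁻¹ * ((t - δ / 2) ^ 2 + 3 / 4 * δ ^ 2) := by
          field_simp
          ring
        have h7 : 0 ≤ δ⁻¹ * ((t - δ / 2) ^ 2 + 3 / 4 * δ ^ 2) := by positivity
        linarith
      calc ‖∫ x, (((p ^ n : ℕ) : ℂ))⁻¹ * SS p q k n x ∂K‖
          ≤ ∫ x, ‖(((p ^ n : ℕ) : ℂ))⁻¹ * SS p q k n x‖ ∂K := norm_integral_le_integral_norm _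
        _ ≤ ∫ x, (δ + δ⁻¹ * sq p q k n x) ∂K := by
            apply integral_mono _ ((integrable_const _).add (hsqi.const_mul _)) h4
            refine Integrable.norm ?_
            exact Integrable.of_bound
              (continuous_const.mul (continuous_SS p q k n)).aestronglyMeasurable 1
              (Eventually.of_forall fun x => by
                rw [norm_mul, norm_inv, Complex.norm_natCast, inv_mul_le_iff₀ hP, mul_one]
                exact norm_SS_le p q k n x)
        _ = δ * c + δ⁻¹ * ∫ x, sq p q k n x ∂K := by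
            rw [integral_add (integrable_const _) (hsqi.const_mul _), integral_const_mul,
              integral_const, smul_eq_mul, mul_comm δ, ← hc]
        _ ≤ ε / 2 + δ⁻¹ * ∫ x, sq p q k n x ∂K := by
            have : δ * c ≤ ε / 2 := by
              rw [hδ, div_mul_eq_mul_div, div_le_div_iff₀ (by positivity) (by positivity)]
              nlinarith
            linarith
        _ < ε / 2 + δ⁻¹ * (δ * ε / 2) := by
            have := mul_lt_mul_of_pos_left h3' (inv_pos.2 hδ0)
            linarith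
        _ = ε := by field_simp; ring
  have hclosed : IsClosed (V : Set C(UnitAddCircle, ℂ)) := by
    rw [← isSeqClosed_iff_isClosed]
    intro u g hu hg
    show Tendsto (fun n => Av K p q n g) atTop (𝓝 (c * ∫ x, g x))
    rw [Metric.tendsto_atTop]
    intro ε hε
    rw [Metric.tendsto_atTop] at hg
    set δ : ℝ := ε / (3 * (c + 1)) with hδ
    have hδ0 : 0 < δ := by positivity
    have hδc : c * δ ≤ ε / 3 := by
      rw [hδ, mul_div_assoc', div_le_div_iff₀ (by positivity) (by positivity)]
      nlinarith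
    obtain ⟨m, hm⟩ := hg δ hδ0
    have hm' := hm m le_rfl
    have hum : Tendsto (fun n => Av K p q n (u m)) atTop (𝓝 (c * ∫ x, u m x)) := hu m
    rw [Metric.tendsto_atTop] at hum
    obtain ⟨n₀, hn₀⟩ := hum (ε / 3) (by positivity)
    refine ⟨n₀, fun n hn => ?_⟩
    have h1 := hn₀ n hn
    have h2 : dist (Av K p q n g) (Av K p q n (u m)) ≤ ε / 3 := by
      have e1 : Av K p q n g = Av K p q n (g - u m) + Av K p q n (u m) := by
        rw [← Av_add]; congr 1; abel
      rw [e1, dist_eq_norm, add_sub_cancel_right]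
      refine (Av_norm_le K hp q n _).trans ?_
      rw [← dist_eq_norm, dist_comm]
      exact (mul_le_mul_of_nonneg_left hm'.le hc0).trans hδc
    have h3 : dist ((c : ℂ) * ∫ x, u m x) (c * ∫ x, g x) ≤ ε / 3 := by
      rw [dist_eq_norm, ← mul_sub, ← integral_sub (hint _) (hint _), norm_mul, Complex.norm_real,
        Real.norm_eq_abs, abs_of_nonneg hc0]
      have h4 : ‖∫ x : UnitAddCircle, (u m x - g x)‖ ≤ ‖u m - g‖ := by
        refine (norm_integral_le_of_norm_le_const (C := ‖u m - g‖)
          (Eventually.of_forall fun x => (u m - g).norm_coe_le_norm x)).trans ?_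
        rw [hvol, mul_one]
      rw [← dist_eq_norm] at h4
      exact (mul_le_mul_of_nonneg_left (h4.trans hm'.le) hc0).trans hδc
    calc dist (Av K p q n g) (c * ∫ x, g x) ≤ dist (Av K p q n g) (Av K p q n (u m)) +
        dist (Av K p q n (u m)) (c * ∫ x, u m x) + dist ((c : ℂ) * ∫ x, u m x) (c * ∫ x, g x) :=
          dist_triangle4 _ _ _ _
      _ < ε := by linarith
  have htop : g ∈ (Submodule.span ℂ (Set.range (@fourier 1))).topologicalClosure := by
    rw [span_fourier_closure_eq_top]; trivial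
  exact (Submodule.topologicalClosure_minimal _ hspan hclosed) htop

/-- a measure dominated by an invariant measure singular to Lebesgue measure, for which the square
means tend to `0`, vanishes -/
theorem eq_zero_of_sq {p q : ℕ} (hp : 2 ≤ p) {ν K : Measure UnitAddCircle}
    [IsProbabilityMeasure ν] (hqν : ∀ j : ℕ, MeasurePreserving
      (fun x : UnitAddCircle => (q ^ j) • x) ν ν)
    (hν : ν ⟂ₘ volume) (hK : K ≤ ν)
    (h : ∀ k : ℤ, k ≠ 0 → Tendsto (fun n => ∫ x, sq p q k n x ∂K) atTop (𝓝 0)) : K = 0 := by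
  have hKf : IsFiniteMeasure K := isFiniteMeasure_of_le ν hK
  have hc1 : K.real Set.univ ≤ 1 := by
    rw [Measure.real]
    refine ENNReal.toReal_le_of_le_ofReal zero_le_one ?_
    rw [ENNReal.ofReal_one, ← measure_univ (μ := ν)]
    exact hK _
  refine principle hK hν fun f hf hf0 hf1 ε hε => ?_
  let g : C(UnitAddCircle, ℂ) := ⟨fun x => (f x : ℂ), Complex.continuous_ofReal.comp hf⟩
  have h1 := tendsto_Av hp h g
  have h2 : ∀ n, Av K p q n g =
      ((((p ^ n : ℕ) : ℝ)⁻¹ * ∑ j ∈ range (p ^ n), ∫ x, f ((q ^ j) • x) ∂K : ℝ) : ℂ) := by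
    intro n
    unfold Av
    push_cast
    congr 1
    apply sum_congr rfl
    intro j _
    exact integral_complex_ofReal
  have h3 : ((K.real Set.univ : ℂ) * ∫ x, g x) = ((K.real Set.univ * ∫ x, f x : ℝ) : ℂ) := by
    push_cast
    congr 1
    exact integral_complex_ofReal
  rw [h3] at h1
  simp_rw [h2] at h1
  rw [Metric.tendsto_atTop] at h1
  obtain ⟨n, hn⟩ := h1 ε hε
  have h4 := hn n le_rfl
  rw [Complex.dist_eq, ← Complex.ofReal_sub, Complex.norm_real, Real.norm_eq_abs, abs_lt] at h4
  have hP : 0 < p ^ n := by positivity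
  have hP' : (0 : ℝ) < ((p ^ n : ℕ) : ℝ) := by exact_mod_cast hP
  refine ⟨p ^ n, hP, fun j => q ^ j, fun j _ => hqν j, ?_⟩
  have hf' : 0 ≤ ∫ x, f x := integral_nonneg hf0
  have h5 : ((p ^ n : ℕ) : ℝ)⁻¹ * ∑ j ∈ range (p ^ n), ∫ x, f ((q ^ j) • x) ∂K ≤
      (∫ x, f x) + ε := by
    have : K.real Set.univ * ∫ x, f x ≤ 1 * ∫ x, f x := mul_le_mul_of_nonneg_right hc1 hf'
    linarith [h4.2]
  rwa [inv_mul_le_iff₀ hP'] at h5

end Pool.Agent.K3h72.Tr
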