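import Pool.Agent.K3h72.Tr.Me
import Pool.Agent.K3h72.Tr.Eq

/-!
Translates by elements of order dividing `p`.
-/

set_option autoImplicit false

open MeasureTheory Filter Topology Finset
open scoped ENNReal

namespace Pool.Agent.K3h72.Tr

/-- frequently visiting a set where `u ≤ c < 1` forces the product to tend to zero -/
lemma iInf_UU_eq_zero {p : ℕ} {u : UnitAddCircle → ℝ≥0∞} (hu1 : ∀ x, u x ≤ 1) {c : ℝ≥0∞}
    (hc : c < 1) {x : UnitAddCircle} (hx : ∃ᶠ k in atTop, u ((p ^ k) • x) ≤ c) :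
    ⨅ n, UU p u n x = 0 := by
  have h1 : ∀ m : ℕ, ∃ n, UU p u n x ≤ c ^ m := by
    intro m
    induction m with
    | zero => exact ⟨0, by simpa using UU_le_one hu1 0 x⟩
    | succ m ih =>
      obtain ⟨n, hn⟩ := ih
      obtain ⟨k, hk, hkc⟩ := (frequently_atTop.1 hx) n
      refine ⟨k + 1, ?_⟩
      rw [UU_succ, pow_succ]
      exact mul_le_mul' ((UU_antitone hu1 x hk).trans hn) hkc
  have h2 : ∀ m : ℕ, ⨅ n, UU p u n x ≤ c ^ m := fun m => by
    obtain ⟨n, hn⟩ := h1 m
    exact (iInf_le _ n).trans hn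
  have h3 := ENNReal.tendsto_pow_atTop_nhds_zero_of_lt_one hc
  exact le_antisymm (ge_of_tendsto' h3 h2) bot_le

lemma lintegral_sq_Om {p q : ℕ} (hp : 2 ≤ p) (hq : 2 ≤ q) (hpq : Nat.Coprime p q) {k : ℤ}
    (hk : k ≠ 0) (ω : Measure UnitAddCircle) (n : ℕ) :
    ∫⁻ x, ENNReal.ofReal (sq p q k n x) ∂(Om ω (p ^ n)) ≤
      ENNReal.ofReal (2 * (DD p q k).natAbs) * ω Set.univ := by
  have hm : Measurable fun x => ENNReal.ofReal (sq p q k n x) :=
    (continuous_sq p q k n).measurable.ennreal_ofReal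
  have hm2 : ∀ i ∈ range (p ^ n), Measurable fun x : UnitAddCircle =>
      ENNReal.ofReal (sq p q k n (x + i • hh (p ^ n))) := fun i _ => hm.comp (measurable_tr _)
  rw [lintegral_Om ω _ hm, ← lintegral_finsetSum _ hm2, ← lintegral_const]
  apply lintegral_mono
  intro x
  change ∑ i ∈ range (p ^ n), ENNReal.ofReal (sq p q k n (x + i • hh (p ^ n))) ≤ _
  rw [← ENNReal.ofReal_sum_of_nonneg (fun i _ => sq_nonneg' p q k n _)]
  exact ENNReal.ofReal_le_ofReal (sq_sum hp hq hpq hk n x)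

/-- decay of the square means on the set where the cocycle tends to zero -/
lemma tendsto_sq {p q : ℕ} (hp : 2 ≤ p) (hq : 2 ≤ q) (hpq : Nat.Coprime p q) {k : ℤ}
    (hk : k ≠ 0) {ω ν : Measure UnitAddCircle} [IsFiniteMeasure ω] [IsFiniteMeasure ν]
    (hω : MeasurePreserving (fun x : UnitAddCircle => p • x) ω ω) (hνω : ν ≤ ω)
    {u : UnitAddCircle → ℝ≥0∞} (hu : Measurable u) (hu1 : ∀ x, u x ≤ 1)
    (h : ω = (Om ω p).withDensity u) :
    Tendsto (fun n => ∫ x, sq p q k n x ∂(ν.restrict {x | ⨅ n, UU p u n x = 0})) atTop (𝓝 0) := by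
  set C : Set UnitAddCircle := {x | ⨅ n, UU p u n x = 0} with hC
  have hUm : ∀ n, Measurable (UU p u n) := measurable_UU p hu
  have hCm : MeasurableSet C := (Measurable.iInf hUm) (measurableSet_singleton 0)
  set B : ℝ≥0∞ := ENNReal.ofReal (2 * (DD p q k).natAbs) * ω Set.univ with hB
  have hBtop : B ≠ ⊤ := ENNReal.mul_ne_top ENNReal.ofReal_ne_top (measure_ne_top _ _)
  have hm : ∀ n, Measurable fun x => ENNReal.ofReal (sq p q k n x) := fun n =>
    (continuous_sq p q k n).measurable.ennreal_ofReal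
  -- the main bound
  have hmain : ∀ (ε : ℝ≥0∞) (n : ℕ), ∫⁻ x in C, ENNReal.ofReal (sq p q k n x) ∂ν ≤
      ν (C ∩ {x | ε ≤ UU p u n x}) + ε * B := by
    intro ε n
    have hEm : MeasurableSet {x | ε ≤ UU p u n x} := measurableSet_le measurable_const (hUm n)
    set E := {x | ε ≤ UU p u n x} with hE
    have h1 : ∫⁻ x in C, ENNReal.ofReal (sq p q k n x) ∂ν =
        ∫⁻ x in C ∩ E, ENNReal.ofReal (sq p q k n x) ∂ν +
          ∫⁻ x in C \ E, ENNReal.ofReal (sq p q k n x) ∂ν :=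
      (lintegral_inter_add_sdiff _ C hEm).symm
    rw [h1]
    refine add_le_add ?_ ?_
    · calc ∫⁻ x in C ∩ E, ENNReal.ofReal (sq p q k n x) ∂ν ≤ ∫⁻ x in C ∩ E, 1 ∂ν := by
            apply lintegral_mono
            intro x
            exact ENNReal.ofReal_le_one.2 (sq_le_one hp q k n x)
        _ = ν (C ∩ E) := setLIntegral_one _
    · calc ∫⁻ x in C \ E, ENNReal.ofReal (sq p q k n x) ∂ν
          ≤ ∫⁻ x in C \ E, ENNReal.ofReal (sq p q k n x) ∂ω :=
            lintegral_mono' (Measure.restrict_mono le_rfl hνω) le_rfl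
        _ ≤ ∫⁻ x in Eᶜ, ENNReal.ofReal (sq p q k n x) ∂ω :=
            lintegral_mono_set (fun x hx => hx.2)
        _ = ∫⁻ x in Eᶜ, ENNReal.ofReal (sq p q k n x)
              ∂((Om ω (p ^ n)).withDensity (UU p u n)) := by
            rw [← dens (by omega) hω hu h n]
        _ = ∫⁻ x in Eᶜ, (UU p u n * fun x => ENNReal.ofReal (sq p q k n x)) x
              ∂(Om ω (p ^ n)) :=
            setLIntegral_withDensity_eq_setLIntegral_mul _ (hUm n) (hm n) hEm.compl
        _ ≤ ∫⁻ x in Eᶜ, ε * ENNReal.ofReal (sq p q k n x) ∂(Om ω (p ^ n)) := by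
            apply setLIntegral_mono ((hm n).const_mul ε)
            intro x hx
            simp only [Pi.mul_apply]
            have : UU p u n x ≤ ε := le_of_lt (not_le.1 hx)
            gcongr
        _ ≤ ∫⁻ x, ε * ENNReal.ofReal (sq p q k n x) ∂(Om ω (p ^ n)) :=
            setLIntegral_le_lintegral _ _
        _ = ε * ∫⁻ x, ENNReal.ofReal (sq p q k n x) ∂(Om ω (p ^ n)) :=
            lintegral_const_mul _ (hm n)
        _ ≤ ε * B := by
            gcongr
            exact lintegral_sq_Om hp hq hpq hk ω n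
  -- the measure of the bad set tends to zero
  have hbad : ∀ ε : ℝ≥0∞, ε ≠ 0 →
      Tendsto (fun n => ν (C ∩ {x | ε ≤ UU p u n x})) atTop (𝓝 0) := by
    intro ε hε
    have hmeas : ∀ n, MeasurableSet (C ∩ {x | ε ≤ UU p u n x}) := fun n =>
      hCm.inter (measurableSet_le measurable_const (hUm n))
    have h1 := tendsto_measure_iInter_atTop (μ := ν) (s := fun n => C ∩ {x | ε ≤ UU p u n x})
      (fun n => (hmeas n).nullMeasurableSet) (by
        intro a b hab x hx
        exact ⟨hx.1, le_trans hx.2 (UU_antitone hu1 x hab)⟩) ⟨0, measure_ne_top _ _⟩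
    have h2 : ⋂ n, (C ∩ {x | ε ≤ UU p u n x}) = ∅ := by
      rw [Set.eq_empty_iff_forall_notMem]
      intro x hx
      rw [Set.mem_iInter] at hx
      have h3 : ε ≤ ⨅ n, UU p u n x := le_iInf fun n => (hx n).2
      rw [(hx 0).1] at h3
      exact hε (le_antisymm h3 bot_le)
    rw [h2, measure_empty] at h1
    exact h1
  have hlim : Tendsto (fun n => ∫⁻ x in C, ENNReal.ofReal (sq p q k n x) ∂ν) atTop (𝓝 0) := by
    rw [ENNReal.tendsto_nhds_zero]
    intro δ hδ
    set δ' := min δ 1 with hδ'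
    have hδ'0 : δ' ≠ 0 := by
      rw [hδ']; exact (lt_min hδ one_pos).ne'
    have hδ't : δ' ≠ ⊤ := ne_top_of_le_ne_top ENNReal.one_ne_top (min_le_right _ _)
    set ε := δ' / 2 / (B + 1) with hε
    have hB1 : B + 1 ≠ ⊤ := ENNReal.add_ne_top.2 ⟨hBtop, ENNReal.one_ne_top⟩
    have hB0 : B + 1 ≠ 0 := by simp
    have hε0 : ε ≠ 0 := by
      rw [hε]
      refine ENNReal.div_ne_zero.2 ⟨ENNReal.div_ne_zero.2 ⟨hδ'0, by simp⟩, hB1⟩
    have hεB : ε * B ≤ δ' / 2 := by
      calc ε * B ≤ ε * (B + 1) := by gcongr; exact le_self_add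
        _ = δ' / 2 := ENNReal.div_mul_cancel hB0 hB1
    have h1 := (ENNReal.tendsto_nhds_zero.1 (hbad ε hε0)) (δ' / 2)
      (ENNReal.div_pos hδ'0 (by simp))
    filter_upwards [h1] with n hn
    calc ∫⁻ x in C, ENNReal.ofReal (sq p q k n x) ∂ν ≤ _ := hmain ε n
      _ ≤ δ' / 2 + δ' / 2 := add_le_add hn hεB
      _ = δ' := ENNReal.add_halves _
      _ ≤ δ := min_le_left _ _
  have h1 : ∀ n, ∫ x, sq p q k n x ∂(ν.restrict C) =
      (∫⁻ x in C, ENNReal.ofReal (sq p q k n x) ∂ν).toReal := by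
    intro n
    rw [integral_eq_lintegral_of_nonneg_ae (Eventually.of_forall fun x => sq_nonneg' p q k n x)
      (continuous_sq p q k n).aestronglyMeasurable]
  simp_rw [h1]
  have h2 : Tendsto (fun n => (∫⁻ x in C, ENNReal.ofReal (sq p q k n x) ∂ν).toReal) atTop
      (𝓝 (0 : ℝ≥0∞).toReal) := (ENNReal.tendsto_toReal ENNReal.zero_ne_top).comp hlim
  rwa [ENNReal.toReal_zero] at h2

/-- **Core.** The common part of an invariant measure and the translate of another one by an element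
of order dividing `p`. -/
theorem core {p q : ℕ} (hp : 2 ≤ p) (hq : 2 ≤ q) (hpq : Nat.Coprime p q)
    {μ₁ μ₂ ν K : Measure UnitAddCircle} [IsFiniteMeasure μ₁] [IsFiniteMeasure μ₂]
    [IsProbabilityMeasure ν]
    (hpμ₁ : MeasurePreserving (fun x : UnitAddCircle => p • x) μ₁ μ₁)
    (hpμ₂ : MeasurePreserving (fun x : UnitAddCircle => p • x) μ₂ μ₂)
    (hqν : ∀ j : ℕ, MeasurePreserving (fun x : UnitAddCircle => (q ^ j) • x) ν ν)
    (hν : ν ⟂ₘ volume) {β : UnitAddCircle} (hβ : p • β = 0) (hβ0 : β ≠ 0)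
    (hK1 : K ≤ μ₁) (hK2 : K ≤ μ₂.map (fun x => x + β)) (hK3 : K ≤ ν) : K = 0 := by
  obtain ⟨i, hip, rfl⟩ := exists_eq_nsmul_hh (by omega : 0 < p) hβ
  have hi0 : 0 < i := by
    rcases Nat.eq_zero_or_pos i with rfl | h
    · simp at hβ0
    · exact h
  have hKf : IsFiniteMeasure K := isFiniteMeasure_of_le ν hK3
  set ω : Measure UnitAddCircle := μ₁ + μ₂ with hωdef
  have hω : MeasurePreserving (fun x : UnitAddCircle => p • x) ω ω := by
    refine ⟨measurable_nsmul' p, ?_⟩
    rw [hωdef, Measure.map_add _ _ (measurable_nsmul' p), hpμ₁.map_eq, hpμ₂.map_eq]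
  have hμ1ω : μ₁ ≤ ω := Measure.le_add_right le_rfl
  have hμ2ω : μ₂ ≤ ω := Measure.le_add_left le_rfl
  have hKω : K ≤ ω := hK1.trans hμ1ω
  have hKω' : K ≤ ω.map (fun x => x + i • hh p) :=
    hK2.trans (Measure.map_mono hμ2ω (measurable_tr _))
  obtain ⟨u, hum, hu1, hud, hKu⟩ := exists_density (p := p) hi0 hip hKω'
  by_contra hne
  -- a set where `u ≤ c < 1`
  obtain ⟨c, hc1, hcA⟩ : ∃ c : ℝ≥0∞, c < 1 ∧ K {x | u x ≤ c} ≠ 0 := by
    by_contra hcon
    push Not at hcon
    obtain ⟨b, -, hb1, hb⟩ := exists_seq_strictMono_tendsto' (zero_lt_one (α := ℝ≥0∞))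
    have h1 : (Set.univ : Set UnitAddCircle) ⊆ {x | u x = 1} ∪ ⋃ m, {x | u x ≤ b m} := by
      intro x _
      rcases (hu1 x).eq_or_lt with h | h
      · exact Or.inl h
      · right
        rw [Set.mem_iUnion]
        obtain ⟨m, hm⟩ := (hb.eventually (lt_mem_nhds h)).exists
        exact ⟨m, hm.le⟩
    have h2 : K Set.univ ≤ 0 := by
      refine (measure_mono h1).trans ((measure_union_le _ _).trans ?_)
      rw [hKu, zero_add]
      refine (measure_iUnion_le _).trans ?_
      have h3 : ∀ m, K {x | u x ≤ b m} = 0 := fun m => hcon _ (hb1 m).2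
      simp [h3]
    exact hne (Measure.measure_univ_eq_zero.1 (le_antisymm h2 bot_le))
  set C : Set UnitAddCircle := {x | ⨅ n, UU p u n x = 0} with hC
  have hAm : MeasurableSet {x | u x ≤ c} := measurableSet_le hum measurable_const
  have hAC : K {x | u x ≤ c} ≤ K C := by
    apply measure_mono_ae
    have h1 := hω.conservative.ae_mem_imp_frequently_image_mem hAm.nullMeasurableSet
    have h1' := (Measure.absolutelyContinuous_of_le hKω).ae_le h1
    filter_upwards [h1'] with x hx hxA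
    have h2 := hx hxA
    have h3 : ∃ᶠ k in atTop, u ((p ^ k) • x) ≤ c := by
      refine h2.mono fun k hk => ?_
      have h4 : (fun x : UnitAddCircle => p • x)^[k] x = (p ^ k) • x := by
        rw [smul_iterate]
      rw [h4] at hk
      exact hk
    exact iInf_UU_eq_zero hu1 hc1 h3
  have hK' : K.restrict C = 0 := by
    refine eq_zero_of_sq hp hqν hν (Measure.restrict_le_self.trans hK3) fun k hk => ?_
    exact tendsto_sq hp hq hpq hk hω hKω hum hu1 hud
  rw [Measure.restrict_eq_zero] at hK'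
  rw [hK'] at hAC
  exact hcA (le_antisymm hAC bot_le)

end Pool.Agent.K3h72.Tr
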