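import Pool.Agent.K3h72.Tr.C

/-!
Affine relations between the points of a set of full measure.
-/

set_option autoImplicit false

open MeasureTheory Filter Topology
open scoped ENNReal

namespace Pool.Agent.K3h72.Tr

/-- a measure all of whose nontrivial Fourier coefficients vanish is Lebesgue measure -/
lemma eq_volume_of_fourier {ν : Measure UnitAddCircle} [IsProbabilityMeasure ν]
    (h : ∀ k : ℤ, k ≠ 0 → ∫ x, (fourier k x : ℂ) ∂ν = 0) : ν = volume := by
  have hprob : IsProbabilityMeasure (volume : Measure UnitAddCircle) :=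
    ⟨UnitAddCircle.measure_univ⟩
  have hint : ∀ (m : Measure UnitAddCircle) [IsProbabilityMeasure m] (g : C(UnitAddCircle, ℂ)),
      Integrable g m := fun m _ g => Integrable.of_bound g.continuous.aestronglyMeasurable ‖g‖
      (Eventually.of_forall fun x => g.norm_coe_le_norm _)
  have hspan : ∀ g ∈ Submodule.span ℂ (Set.range (@fourier 1)),
      ∫ x, g x ∂ν = ∫ x, g x := by
    intro g hg
    induction hg using Submodule.span_induction with
    | mem g hg =>
      obtain ⟨k, rfl⟩ := hg
      rcases eq_or_ne k 0 with rfl | hk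
      · simp
      · rw [h k hk, integral_fourier_zero hk]
    | zero => simp
    | add a b _ _ ha hb =>
      have h1 : ∫ x, (a + b) x ∂ν = (∫ x, a x ∂ν) + ∫ x, b x ∂ν :=
        integral_add (hint ν a) (hint ν b)
      have h2 : ∫ x, (a + b) x = (∫ x, a x) + ∫ x, b x :=
        integral_add (hint volume a) (hint volume b)
      rw [h1, h2, ha, hb]
    | smul c a _ ha =>
      have h1 : ∫ x, (c • a) x ∂ν = c * ∫ x, a x ∂ν := integral_const_mul c _
      have h2 : ∫ x, (c • a) x = c * ∫ x, a x := integral_const_mul c _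
      rw [h1, h2, ha]
  have hall : ∀ g : C(UnitAddCircle, ℂ), ∫ x, g x ∂ν = ∫ x, g x := by
    intro g
    have htop : g ∈ (Submodule.span ℂ (Set.range (@fourier 1))).topologicalClosure := by
      rw [span_fourier_closure_eq_top]; trivial
    have hcl : g ∈ closure ((Submodule.span ℂ (Set.range (@fourier 1)) :
        Submodule ℂ C(UnitAddCircle, ℂ)) : Set C(UnitAddCircle, ℂ)) := htop
    rw [Metric.mem_closure_iff] at hcl
    refine eq_of_forall_dist_le fun ε hε => ?_
    obtain ⟨g', hg', hd⟩ := hcl (ε / 2) (by positivity)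
    have key : ∀ (m : Measure UnitAddCircle) [IsProbabilityMeasure m],
        dist (∫ x, g x ∂m) (∫ x, g' x ∂m) ≤ ε / 2 := by
      intro m _
      rw [dist_eq_norm, ← integral_sub (hint m g) (hint m g')]
      refine (norm_integral_le_of_norm_le_const (C := ‖g - g'‖)
        (Eventually.of_forall fun x => (g - g').norm_coe_le_norm x)).trans ?_
      simp only [Measure.real, measure_univ, ENNReal.toReal_one, mul_one]
      rw [← dist_eq_norm]
      exact hd.le
    calc dist (∫ x, g x ∂ν) (∫ x, g x) ≤ dist (∫ x, g x ∂ν) (∫ x, g' x ∂ν) +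
        dist (∫ x, g' x ∂ν) (∫ x, g x) := dist_triangle _ _ _
      _ ≤ ε / 2 + ε / 2 := by
          refine add_le_add (key ν) ?_
          rw [hspan g' hg', dist_comm]
          exact key volume
      _ = ε := by ring
  apply ext_of_forall_integral_eq_of_IsFiniteMeasure
  intro f
  let g : C(UnitAddCircle, ℂ) := ⟨fun x => (f x : ℂ), Complex.continuous_ofReal.comp f.continuous⟩
  have h1 := hall g
  have h2 : ∀ m : Measure UnitAddCircle, ∫ x, g x ∂m = ((∫ x, f x ∂m : ℝ) : ℂ) := fun m =>
    integral_complex_ofReal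
  rw [h2, h2] at h1
  exact_mod_cast h1

/-- the set of the symmetries is finite -/
lemma finite_symm {ν : Measure UnitAddCircle} [IsProbabilityMeasure ν] (hν : ν ≠ volume) :
    {α : UnitAddCircle | ν.map (fun x => x + α) = ν}.Finite := by
  obtain ⟨k, hk, hk0⟩ : ∃ k : ℤ, k ≠ 0 ∧ ∫ x, (fourier k x : ℂ) ∂ν ≠ 0 := by
    by_contra hcon
    push Not at hcon
    exact hν (eq_volume_of_fourier hcon)
  have hn : 0 < k.natAbs := Int.natAbs_pos.2 hk
  have hfin : {u : UnitAddCircle | k.natAbs • u = 0}.Finite := by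
    refine ((Finset.range k.natAbs).finite_toSet.image
      fun i : ℕ => i • hh k.natAbs).subset ?_
    intro u hu
    obtain ⟨i, hi, rfl⟩ := exists_eq_nsmul_hh hn hu
    exact ⟨i, by simpa using hi, rfl⟩
  refine hfin.subset ?_
  intro α hα
  simp only [Set.mem_ofPred_eq] at hα ⊢
  have h1 : ∫ x, (fourier k x : ℂ) ∂(ν.map (fun x => x + α)) =
      ∫ x, (fourier k (x + α) : ℂ) ∂ν :=
    integral_map (measurable_tr α).aemeasurable (map_continuous _).aestronglyMeasurable
  rw [hα] at h1
  simp_rw [fourier_add'] at h1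
  rw [integral_mul_const] at h1
  have h2 : (fourier k α : ℂ) = 1 := by
    have h3 : (∫ x, (fourier k x : ℂ) ∂ν) * (fourier k α) = (∫ x, (fourier k x : ℂ) ∂ν) * 1 := by
      rw [mul_one]; exact h1.symm
    exact mul_left_cancel₀ hk0 h3
  have h3 : k • α = 0 := by
    have h4 : AddCircle.toCircle (k • α) = AddCircle.toCircle (0 : UnitAddCircle) := by
      rw [fourier_apply] at h2
      rw [AddCircle.toCircle_zero]
      exact Circle.coe_injective (by rw [h2]; simp)
    exact AddCircle.injective_toCircle one_ne_zero h4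
  rcases Int.natAbs_eq k with h5 | h5
  · rw [h5] at h3
    exact_mod_cast h3
  · rw [h5, neg_smul, neg_eq_zero] at h3
    exact_mod_cast h3

lemma measurable_zsmul' (a : ℤ) : Measurable fun x : UnitAddCircle => a • x :=
  (continuous_zsmul a).measurable

lemma mp_image {r : ℕ} {μ : Measure UnitAddCircle}
    (hr : MeasurePreserving (fun x : UnitAddCircle => r • x) μ μ) (a : ℤ) :
    MeasurePreserving (fun x : UnitAddCircle => r • x) (μ.map (fun x => a • x))
      (μ.map (fun x => a • x)) := by
  refine ⟨measurable_nsmul' r, ?_⟩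
  rw [Measure.map_map (measurable_nsmul' r) (measurable_zsmul' a)]
  conv_rhs => rw [← hr.map_eq]
  rw [Measure.map_map (measurable_zsmul' a) (measurable_nsmul' r)]
  congr 1
  funext x
  simp only [Function.comp]
  exact smul_comm _ _ _

lemma jerg_image {p q : ℕ} {μ : Measure UnitAddCircle} (h : JErg p q μ) (a : ℤ) :
    JErg p q (μ.map (fun x => a • x)) := by
  intro E hE hEp hEq
  rw [Measure.map_apply (measurable_zsmul' a) hE]
  refine h _ (measurable_zsmul' a hE) ?_ ?_
  · ext x
    simp only [Set.mem_preimage]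
    rw [smul_comm a p x]
    conv_rhs => rw [← hEp]
    rfl
  · ext x
    simp only [Set.mem_preimage]
    rw [smul_comm a q x]
    conv_rhs => rw [← hEq]
    rfl

/-- the image of a singular measure under `x ↦ n x` is not Lebesgue measure -/
lemma map_ne_volume {ν : Measure UnitAddCircle} [IsProbabilityMeasure ν] (hν : ν ⟂ₘ volume)
    {n : ℕ} (hn : 0 < n) : ν.map (fun x => n • x) ≠ volume := by
  intro h
  have hv : MeasurePreserving (fun x : UnitAddCircle => n • x) volume volume := by
    rcases Nat.lt_or_ge n 2 with h1 | h1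
    · have : n = 1 := by omega
      subst this
      have e : (fun x : UnitAddCircle => 1 • x) = id := by funext x; simp
      rw [e]; exact MeasurePreserving.id _
    · exact mp_volume h1
  obtain ⟨s, hs, h1, h2⟩ := hν
  have hF : Measurable (sᶜ.indicator (fun _ : UnitAddCircle => (1 : ℝ≥0∞))) :=
    measurable_const.indicator hs.compl
  set F := sᶜ.indicator (fun _ : UnitAddCircle => (1 : ℝ≥0∞)) with hFdef
  have hm : ∀ i ∈ Finset.range n, Measurable fun x : UnitAddCircle => F (x + i • hh n) :=
    fun i _ => hF.comp (measurable_tr _)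
  have e1 : ∀ m : Measure UnitAddCircle, ∑ i ∈ Finset.range n, ∫⁻ x, F (x + i • hh n) ∂m =
      ∫⁻ x, LL n F x ∂(m.map (fun x => n • x)) := by
    intro m
    rw [← lintegral_finsetSum _ hm, lintegral_map (measurable_LL n hF) (measurable_nsmul' n)]
    exact lintegral_congr fun x => (LL_apply hn F x).symm
  have e2 : ∑ i ∈ Finset.range n, ∫⁻ x, F (x + i • hh n) ∂ν =
      ∑ i ∈ Finset.range n, ∫⁻ x, F (x + i • hh n) := by
    rw [e1, e1, h, hv.map_eq]
  have e3 : ∀ i : ℕ, ∫⁻ x : UnitAddCircle, F (x + i • hh n) = 0 := by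
    intro i
    rw [lintegral_add_right_eq_self F (i • hh n), hFdef, lintegral_indicator_const hs.compl, h2,
      mul_zero]
  simp_rw [e3] at e2
  rw [Finset.sum_const_zero, Finset.sum_eq_zero_iff] at e2
  have e4 := e2 0 (Finset.mem_range.2 hn)
  simp only [zero_smul, add_zero] at e4
  rw [hFdef, lintegral_indicator_const hs.compl, one_mul] at e4
  have e5 : ν Set.univ ≤ 0 := by
    rw [← Set.union_compl_self s]
    refine (measure_union_le _ _).trans ?_
    rw [h1, e4, add_zero]
  simp at e5

lemma image_ne_volume {ν : Measure UnitAddCircle} [IsProbabilityMeasure ν] (hν : ν ⟂ₘ volume)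
    {a : ℤ} (ha : a ≠ 0) : ν.map (fun x => a • x) ≠ volume := by
  intro h
  have hn : 0 < a.natAbs := Int.natAbs_pos.2 ha
  apply map_ne_volume hν hn
  rcases Int.natAbs_eq a with h5 | h5
  · have e : (fun x : UnitAddCircle => a.natAbs • x) = fun x => a • x := by
      funext x
      conv_rhs => rw [h5]
      rw [natCast_zsmul]
    rw [e]; exact h
  · have e : (fun x : UnitAddCircle => a.natAbs • x) = (fun x => -x) ∘ fun x => a • x := by
      funext x
      simp only [Function.comp]
      conv_rhs => rw [h5]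
      rw [neg_smul, neg_neg, natCast_zsmul]
    have hneg : MeasurePreserving (fun x : UnitAddCircle => -x) volume volume :=
      Measure.measurePreserving_neg volume
    rw [e, ← Measure.map_map measurable_neg (measurable_zsmul' a), h, hneg.map_eq]

/-- **Affine relations.** -/
theorem affine {p q : ℕ} (hp : 2 ≤ p) (hq : 2 ≤ q) (hpq : Nat.Coprime p q)
    {ν : Measure UnitAddCircle} [IsProbabilityMeasure ν]
    (hpν : MeasurePreserving (fun x : UnitAddCircle => p • x) ν ν)
    (hqν : MeasurePreserving (fun x : UnitAddCircle => q • x) ν ν)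
    (hν : TErg p q ν) (hne : ν ≠ volume) {Λ : Set UnitAddCircle} (hΛ : Λ.Countable) :
    ∃ X : Set UnitAddCircle, MeasurableSet X ∧ ν X = 1 ∧ ∀ x ∈ X, ∀ y ∈ X, ∀ a b : ℤ,
      a ≠ 0 → b ≠ 0 → ∀ l ∈ Λ, a • x = b • y + l →
        ν.map (fun z => a • z) = (ν.map (fun z => b • z)).map (fun z => z + l) ∧
          IsOfFinAddOrder l ∧ (addOrderOf l).Coprime (p * q) := by
  have hpv := mp_volume hp
  have hqv := mp_volume hq
  have hprob : IsProbabilityMeasure (volume : Measure UnitAddCircle) :=
    ⟨UnitAddCircle.measure_univ⟩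
  have h1 : ∀ ρ : Measure UnitAddCircle, TErg p q ρ → JErg p q ρ := by
    intro ρ hρ
    have := hρ 1 le_rfl
    simpa using this
  have hsing : ν ⟂ₘ volume :=
    (eq_or_singular hpν hqν hpv hqv (h1 ν hν) (jerg_volume hp q)).resolve_left hne
  have hT : ∀ a : ℤ, TErg p q (ν.map (fun z => a • z)) := fun a k hk => jerg_image (hν k hk) a
  have hP : ∀ a : ℤ, IsProbabilityMeasure (ν.map (fun z : UnitAddCircle => a • z)) := fun a =>
    Measure.isProbabilityMeasure_map (measurable_zsmul' a).aemeasurable
  have hPl : ∀ (a : ℤ) (l : UnitAddCircle),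
      IsProbabilityMeasure ((ν.map (fun z : UnitAddCircle => a • z)).map (fun z => z + l)) :=
    fun a l => Measure.isProbabilityMeasure_map (measurable_tr l).aemeasurable
  have hS : ∀ a : ℤ, a ≠ 0 → ν.map (fun z => a • z) ⟂ₘ volume := fun a ha =>
    (eq_or_singular (mp_image hpν a) (mp_image hqν a) hpv hqv (h1 _ (hT a))
      (jerg_volume hp q)).resolve_left (image_ne_volume hsing ha)
  -- one triple
  have key : ∀ i : ℤ × ℤ × Λ, ∃ X : Set UnitAddCircle, MeasurableSet X ∧ ν Xᶜ = 0 ∧
      ∀ x ∈ X, ∀ y ∈ X, i.1 ≠ 0 → i.2.1 ≠ 0 → i.1 • x = i.2.1 • y + (i.2.2 : UnitAddCircle) →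
        ν.map (fun z => i.1 • z) =
          (ν.map (fun z => i.2.1 • z)).map (fun z => z + (i.2.2 : UnitAddCircle)) ∧
          IsOfFinAddOrder (i.2.2 : UnitAddCircle) ∧
            (addOrderOf (i.2.2 : UnitAddCircle)).Coprime (p * q) := by
    rintro ⟨a, b, l, hl⟩
    simp only
    by_cases hab : a ≠ 0 ∧ b ≠ 0
    swap
    · refine ⟨Set.univ, MeasurableSet.univ, by simp, fun x _ y _ ha hb => ?_⟩
      exact absurd ⟨ha, hb⟩ hab
    obtain ⟨ha, hb⟩ := hab
    rcases dichotomy hp hq hpq (mp_image hpν b) (mp_image hqν b) (mp_image hpν a)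
      (mp_image hqν a) (hT b) (hT a) l with h | h
    · refine ⟨Set.univ, MeasurableSet.univ, by simp, fun x _ y _ _ _ _ => ⟨h.symm, ?_⟩⟩
      by_contra hcon
      have h3 := translate_singular hp hq hpq (mp_image hpν b) (mp_image hqν b) (mp_image hpν a)
        (mp_image hqν a) (hS a ha) hcon
      rw [h] at h3
      exact (NeZero.ne (ν.map (fun z => a • z))) (Measure.MutuallySingular.self_iff _ |>.1 h3)
    · obtain ⟨s, hs, h2, h3⟩ := h
      rw [Measure.map_apply (measurable_tr l) hs,
        Measure.map_apply (measurable_zsmul' b) (measurable_tr l hs)] at h2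
      rw [Measure.map_apply (measurable_zsmul' a) hs.compl] at h3
      refine ⟨((fun z => a • z) ⁻¹' s) ∩
        ((fun z => b • z) ⁻¹' ((fun z => z + l) ⁻¹' s))ᶜ,
        (measurable_zsmul' a hs).inter (measurable_zsmul' b (measurable_tr l hs)).compl, ?_, ?_⟩
      · rw [Set.compl_inter, compl_compl]
        refine le_antisymm ((measure_union_le _ _).trans ?_) bot_le
        rw [← Set.preimage_compl, h3, h2, add_zero]
      · rintro x ⟨hx, -⟩ y ⟨-, hy⟩ _ _ hxy
        exfalso
        apply hy
        simp only [Set.mem_preimage] at hx ⊢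
        rwa [← hxy]
  have : Countable Λ := hΛ
  choose X hXm hX0 hX using key
  refine ⟨⋂ i, X i, MeasurableSet.iInter hXm, ?_, ?_⟩
  · rw [← prob_compl_eq_zero_iff (MeasurableSet.iInter hXm), Set.compl_iInter]
    exact measure_iUnion_null hX0
  · intro x hx y hy a b ha hb l hl hxy
    rw [Set.mem_iInter] at hx hy
    exact hX ⟨a, b, l, hl⟩ x (hx _) y (hy _) ha hb hxy

end Pool.Agent.K3h72.Tr
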