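import Pool.Agent.K3h72.Tr.D

/-!
Relations without ergodicity, and maps with torsion displacement.
-/

set_option autoImplicit false

open MeasureTheory Filter Topology
open scoped ENNReal

namespace Pool.Agent.K3h72.Tr

/-- the image of a singular measure under `x ↦ n x` is singular -/
lemma map_singular {ν : Measure UnitAddCircle} (hν : ν ⟂ₘ volume) {n : ℕ} (hn : 0 < n) :
    ν.map (fun x => n • x) ⟂ₘ volume := by
  have hv : MeasurePreserving (fun x : UnitAddCircle => n • x) volume volume := by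
    rcases Nat.lt_or_ge n 2 with h1 | h1
    · have : n = 1 := by omega
      subst this
      have e : (fun x : UnitAddCircle => 1 • x) = id := by funext x; simp
      rw [e]; exact MeasurePreserving.id _
    · exact mp_volume h1
  obtain ⟨s, hs, h1, h2⟩ := hν
  have hF : Measurable (sᶜ.indicator (fun _ : UnitAddCircle => (1 : ℝ≥0∞))) :=
    measurable_const.indicator hs.compl
  set F := sᶜ.indicator (fun _ : UnitAddCircle => (1 : ℝ≥0∞)) with hFdef
  have hL : Measurable (LL n F) := measurable_LL n hF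
  have hm : ∀ i ∈ Finset.range n, Measurable fun x : UnitAddCircle => F (x + i • hh n) :=
    fun i _ => hF.comp (measurable_tr _)
  have hB : MeasurableSet {y | LL n F y = 0} := hL (measurableSet_singleton 0)
  refine ⟨{y | LL n F y = 0}, hB, ?_, ?_⟩
  · rw [Measure.map_apply (measurable_nsmul' n) hB]
    refine measure_mono_null ?_ h1
    intro x hx
    by_contra hxs
    simp only [Set.mem_preimage, Set.mem_ofPred_eq] at hx
    rw [LL_apply hn, Finset.sum_eq_zero_iff] at hx
    have h3 := hx 0 (Finset.mem_range.2 hn)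
    simp only [zero_smul, add_zero] at h3
    rw [hFdef, Set.indicator_of_mem (show x ∈ sᶜ from hxs)] at h3
    exact one_ne_zero h3
  · have h3 : ∫⁻ y, LL n F y = 0 := by
      have e3 : ∀ i : ℕ, ∫⁻ x : UnitAddCircle, F (x + i • hh n) = 0 := by
        intro i
        rw [lintegral_add_right_eq_self F (i • hh n), hFdef, lintegral_indicator_const hs.compl,
          h2, mul_zero]
      calc ∫⁻ y, LL n F y = ∫⁻ x : UnitAddCircle, LL n F (n • x) := by
            rw [← hv.lintegral_comp hL]
        _ = ∫⁻ x : UnitAddCircle, ∑ i ∈ Finset.range n, F (x + i • hh n) :=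
            lintegral_congr fun x => LL_apply hn F x
        _ = 0 := by
            rw [lintegral_finsetSum _ hm]
            exact Finset.sum_eq_zero fun i _ => e3 i
    rw [lintegral_eq_zero_iff hL] at h3
    exact h3

lemma neg_singular {ν : Measure UnitAddCircle} (hν : ν ⟂ₘ volume) :
    ν.map (fun x => -x) ⟂ₘ volume := by
  obtain ⟨s, hs, h1, h2⟩ := hν
  have hm : MeasurableSet ((fun x : UnitAddCircle => -x) ⁻¹' s) := measurable_neg hs
  refine ⟨_, hm, ?_, ?_⟩
  · rw [Measure.map_apply measurable_neg hm, ← Set.preimage_comp]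
    have : ((fun x : UnitAddCircle => -x) ∘ fun x => -x) = id := by funext x; simp
    rw [this]; exact h1
  · rw [← Set.preimage_compl]
    have := (Measure.measurePreserving_neg (volume : Measure UnitAddCircle)).measure_preimage
      hs.compl.nullMeasurableSet
    rw [this]; exact h2

lemma image_singular {ν : Measure UnitAddCircle} (hν : ν ⟂ₘ volume) {a : ℤ} (ha : a ≠ 0) :
    ν.map (fun x => a • x) ⟂ₘ volume := by
  have hn : 0 < a.natAbs := Int.natAbs_pos.2 ha
  have h := map_singular hν hn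
  rcases Int.natAbs_eq a with h5 | h5
  · have e : (fun x : UnitAddCircle => a • x) = fun x => a.natAbs • x := by
      funext x
      conv_lhs => rw [h5]
      rw [natCast_zsmul]
    rw [e]; exact h
  · have e : (fun x : UnitAddCircle => a • x) = (fun x => -x) ∘ fun x => a.natAbs • x := by
      funext x
      simp only [Function.comp]
      conv_lhs => rw [h5]
      rw [neg_smul, natCast_zsmul]
    rw [e, ← Measure.map_map measurable_neg (measurable_nsmul' _)]
    exact neg_singular h

/-- **No affine relations**, without ergodicity. -/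
theorem affine_general {p q : ℕ} (hp : 2 ≤ p) (hq : 2 ≤ q) (hpq : Nat.Coprime p q)
    {ν : Measure UnitAddCircle} [IsProbabilityMeasure ν]
    (hpν : MeasurePreserving (fun x : UnitAddCircle => p • x) ν ν)
    (hqν : MeasurePreserving (fun x : UnitAddCircle => q • x) ν ν)
    (hν : ν ⟂ₘ volume) {Λ : Set UnitAddCircle} (hΛ : Λ.Countable)
    (hΛ' : ∀ l ∈ Λ, ¬ (IsOfFinAddOrder l ∧ (addOrderOf l).Coprime (p * q))) :
    ∃ X : Set UnitAddCircle, MeasurableSet X ∧ ν X = 1 ∧ ∀ x ∈ X, ∀ y ∈ X, ∀ a b : ℤ,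
      a ≠ 0 → b ≠ 0 → ∀ l ∈ Λ, a • x ≠ b • y + l := by
  have hP : ∀ a : ℤ, IsProbabilityMeasure (ν.map (fun z : UnitAddCircle => a • z)) := fun a =>
    Measure.isProbabilityMeasure_map (measurable_zsmul' a).aemeasurable
  -- one triple
  have key : ∀ i : ℤ × ℤ × Λ, ∃ X : Set UnitAddCircle, MeasurableSet X ∧ ν Xᶜ = 0 ∧
      ∀ x ∈ X, ∀ y ∈ X, i.1 ≠ 0 → i.2.1 ≠ 0 →
        i.1 • x ≠ i.2.1 • y + (i.2.2 : UnitAddCircle) := by
    rintro ⟨a, b, l, hl⟩
    simp only
    by_cases hab : a ≠ 0 ∧ b ≠ 0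
    swap
    · refine ⟨Set.univ, MeasurableSet.univ, by simp, fun x _ y _ ha hb => ?_⟩
      exact absurd ⟨ha, hb⟩ hab
    obtain ⟨ha, hb⟩ := hab
    obtain ⟨s, hs, h2, h3⟩ := translate_singular hp hq hpq (mp_image hpν b) (mp_image hqν b)
      (mp_image hpν a) (mp_image hqν a) (image_singular hν ha) (hΛ' l hl)
    rw [Measure.map_apply (measurable_tr l) hs,
      Measure.map_apply (measurable_zsmul' b) (measurable_tr l hs)] at h2
    rw [Measure.map_apply (measurable_zsmul' a) hs.compl] at h3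
    refine ⟨((fun z => a • z) ⁻¹' s) ∩
      ((fun z => b • z) ⁻¹' ((fun z => z + l) ⁻¹' s))ᶜ,
      (measurable_zsmul' a hs).inter (measurable_zsmul' b (measurable_tr l hs)).compl, ?_, ?_⟩
    · rw [Set.compl_inter, compl_compl]
      refine le_antisymm ((measure_union_le _ _).trans ?_) bot_le
      rw [← Set.preimage_compl, h3, h2, add_zero]
    · rintro x ⟨hx, -⟩ y ⟨-, hy⟩ _ _ hxy
      apply hy
      simp only [Set.mem_preimage] at hx ⊢
      rwa [← hxy]
  have : Countable Λ := hΛ
  choose X hXm hX0 hX using key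
  refine ⟨⋂ i, X i, MeasurableSet.iInter hXm, ?_, ?_⟩
  · rw [← prob_compl_eq_zero_iff (MeasurableSet.iInter hXm), Set.compl_iInter]
    exact measure_iUnion_null hX0
  · intro x hx y hy a b ha hb l hl
    rw [Set.mem_iInter] at hx hy
    exact hX ⟨a, b, l, hl⟩ x (hx _) y (hy _) ha hb

/-- the elements of finite order form a countable set -/
lemma countable_torsion : {α : UnitAddCircle | IsOfFinAddOrder α}.Countable := by
  have h : {α : UnitAddCircle | IsOfFinAddOrder α} ⊆
      Set.range fun z : ℕ × ℕ => z.1 • hh z.2 := by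
    intro α hα
    have h1 : 0 < addOrderOf α := hα.addOrderOf_pos
    obtain ⟨i, -, hi⟩ := exists_eq_nsmul_hh h1 (addOrderOf_nsmul_eq_zero α)
    exact ⟨(i, addOrderOf α), hi.symm⟩
  exact (Set.countable_range _).mono h

/-- **Torsion displacements.** -/
theorem torsion_map {p q : ℕ} (hp : 2 ≤ p) (hq : 2 ≤ q) (hpq : Nat.Coprime p q) {k l m : ℕ}
    (hk : 1 ≤ k) (hl : 1 ≤ l) (hm : 1 ≤ m)
    {μ₁ μ₂ ν K : Measure UnitAddCircle} [IsFiniteMeasure μ₁] [IsFiniteMeasure μ₂]
    [IsProbabilityMeasure ν]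
    (hpμ₁ : MeasurePreserving (fun x : UnitAddCircle => (p ^ k) • x) μ₁ μ₁)
    (hpμ₂ : MeasurePreserving (fun x : UnitAddCircle => (p ^ l) • x) μ₂ μ₂)
    (hqν : MeasurePreserving (fun x : UnitAddCircle => (q ^ m) • x) ν ν)
    (hν : ν ⟂ₘ volume) {f : UnitAddCircle → UnitAddCircle} (hf : Measurable f)
    (hfp : ∀ᵐ x ∂μ₂, IsOfFinAddOrder (f x - x) ∧ ¬ (addOrderOf (f x - x)).Coprime p)
    (hK1 : K ≤ μ₁) (hK2 : K ≤ μ₂.map f) (hK3 : K ≤ ν) : K = 0 := by
  have hKf : IsFiniteMeasure K := isFiniteMeasure_of_le ν hK3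
  set A : Set UnitAddCircle := {α | IsOfFinAddOrder α ∧ ¬ (addOrderOf α).Coprime p} with hA
  have hAc : A.Countable := countable_torsion.mono fun α hα => hα.1
  have : Countable A := hAc
  have hfm : ∀ α : UnitAddCircle, IsFiniteMeasure (μ₂.map (fun x => x + α)) := fun α =>
    Measure.isFiniteMeasure_map _ _
  have hsing : ∀ α : A, K ⟂ₘ μ₂.map (fun x => x + (α : UnitAddCircle)) := by
    rintro ⟨α, hα⟩
    rw [Measure.mutuallySingular_iff_disjoint, disjoint_iff_inf_le]
    have h0 : K ⊓ μ₂.map (fun x => x + α) = 0 :=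
      torsion hp hq hpq hk hl hm hpμ₁ hpμ₂ hqν hν hα.1 hα.2 (inf_le_left.trans hK1) inf_le_right
        (inf_le_left.trans hK3)
    rw [h0]; exact bot_le
  choose s hs h1 h2 using hsing
  set S : Set UnitAddCircle := ⋃ α : A, s α with hS
  have hSm : MeasurableSet S := MeasurableSet.iUnion hs
  have hKS : K S = 0 := measure_iUnion_null h1
  have hμS : (μ₂.map f) Sᶜ = 0 := by
    rw [Measure.map_apply hf hSm.compl]
    have h3 : ∀ᵐ x ∂μ₂, ∀ α : A, x + (α : UnitAddCircle) ∉ Sᶜ := by
      rw [ae_all_iff]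
      intro α
      rw [ae_iff]
      simp only [not_not]
      have h4 := h2 α
      rw [Measure.map_apply (measurable_tr _) (hs α).compl] at h4
      refine measure_mono_null ?_ h4
      intro x hx hx'
      exact hx (Set.mem_iUnion.2 ⟨α, hx'⟩)
    have h5 : ∀ᵐ x ∂μ₂, f x ∉ Sᶜ := by
      filter_upwards [h3, hfp] with x hx hx'
      have h6 := hx ⟨f x - x, hx'⟩
      simpa using h6
    rw [ae_iff] at h5
    exact measure_mono_null (fun x hx => by simpa using hx) h5
  have hKS' : K Sᶜ = 0 := le_antisymm ((hK2 _).trans hμS.le) bot_le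
  rw [← Measure.measure_univ_eq_zero, ← Set.union_compl_self S]
  exact measure_union_null hKS hKS'

end Pool.Agent.K3h72.Tr
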