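import Pool.Agent.K3h72.Tr.Ex

/-!
Sums of translates of an invariant measure over the subgroups of order `p ^ n` and the transfer
operator.
-/

set_option autoImplicit false

open MeasureTheory Filter Topology Finset
open scoped ENNReal

namespace Pool.Agent.K3h72.Tr

/-- the sum of translates of `ω` by the subgroup of order `P` -/
noncomputable def Om (ω : Measure UnitAddCircle) (P : ℕ) : Measure UnitAddCircle :=
  ∑ i ∈ range P, ω.map (fun x => x + i • hh P)

lemma measurable_tr (α : UnitAddCircle) : Measurable fun x : UnitAddCircle => x + α :=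
  measurable_id.add_const α

lemma measurable_nsmul' (n : ℕ) : Measurable fun x : UnitAddCircle => n • x :=
  (continuous_const_smul n).measurable

lemma lintegral_Om (ω : Measure UnitAddCircle) (P : ℕ) {F : UnitAddCircle → ℝ≥0∞}
    (hF : Measurable F) : ∫⁻ x, F x ∂(Om ω P) = ∑ i ∈ range P, ∫⁻ x, F (x + i • hh P) ∂ω := by
  rw [Om, lintegral_finsetSum_measure]
  exact sum_congr rfl fun i _ => lintegral_map hF (measurable_tr _)

instance (ω : Measure UnitAddCircle) [IsFiniteMeasure ω] (P : ℕ) : IsFiniteMeasure (Om ω P) := by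
  refine ⟨?_⟩
  have h := lintegral_Om ω P (F := fun _ => 1) measurable_const
  simp only [lintegral_one] at h
  rw [h]
  simp only [sum_const, nsmul_eq_mul]
  exact ENNReal.mul_lt_top (by simp) (measure_lt_top _ _)

/-- a measurable section of `x ↦ p x` -/
noncomputable def sec (p : ℕ) (y : UnitAddCircle) : UnitAddCircle :=
  ((((AddCircle.equivIco 1 0 y : Set.Ico (0 : ℝ) (0 + 1)) : ℝ) / p : ℝ) : UnitAddCircle)

lemma sec_spec {p : ℕ} (hp : 0 < p) (y : UnitAddCircle) : p • sec p y = y := by
  unfold sec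
  rw [← AddCircle.coe_nsmul, nsmul_eq_mul]
  have h1 : (p : ℝ) * (((AddCircle.equivIco 1 0 y : Set.Ico (0 : ℝ) (0 + 1)) : ℝ) / p) =
      ((AddCircle.equivIco 1 0 y : Set.Ico (0 : ℝ) (0 + 1)) : ℝ) := by
    have : (p : ℝ) ≠ 0 := by positivity
    field_simp
  rw [h1]
  exact AddCircle.coe_equivIco

lemma measurable_sec (p : ℕ) : Measurable (sec p) := by
  unfold sec
  refine (AddCircle.continuous_mk' 1).measurable.comp ?_
  exact (measurable_subtype_coe.comp (AddCircle.measurableEquivIco 1 0).measurable).div_const _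

/-- the transfer operator -/
noncomputable def LL (p : ℕ) (F : UnitAddCircle → ℝ≥0∞) (y : UnitAddCircle) : ℝ≥0∞ :=
  ∑ i ∈ range p, F (sec p y + i • hh p)

lemma measurable_LL (p : ℕ) {F : UnitAddCircle → ℝ≥0∞} (hF : Measurable F) :
    Measurable (LL p F) := by
  unfold LL
  exact Finset.measurable_fun_sum _ fun i _ => hF.comp ((measurable_sec p).add_const _)

lemma sum_shift {M : Type*} [AddCommMonoid M] {P : ℕ} (a : ℕ → M) (ha : ∀ j, a (j + P) = a j)
    (i : ℕ) : ∑ j ∈ range P, a (j + i) = ∑ j ∈ range P, a j := by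
  induction i with
  | zero => simp
  | succ i ih =>
    rw [← ih]
    rcases Nat.eq_zero_or_pos P with rfl | hP
    · simp
    obtain ⟨P', rfl⟩ : ∃ P', P = P' + 1 := ⟨P - 1, by omega⟩
    rw [sum_range_succ, sum_range_succ' (fun j => a (j + i))]
    congr 1
    · apply sum_congr rfl
      intro j _
      congr 1; omega
    · rw [← ha (0 + i)]
      congr 1; omega

lemma sum_range_mul' {M : Type*} [AddCommMonoid M] (f : ℕ → M) (a b : ℕ) :
    ∑ j ∈ range (a * b), f j = ∑ l ∈ range b, ∑ i ∈ range a, f (i + a * l) := by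
  induction b with
  | zero => simp
  | succ b ih =>
    rw [Nat.mul_succ, sum_range_add, ih, sum_range_succ]
    congr 1
    apply sum_congr rfl
    intro i _
    rw [add_comm]

lemma LL_apply {p : ℕ} (hp : 0 < p) (F : UnitAddCircle → ℝ≥0∞) (x : UnitAddCircle) :
    LL p F (p • x) = ∑ i ∈ range p, F (x + i • hh p) := by
  obtain ⟨i, -, hi⟩ := exists_eq_nsmul_hh hp (x := x - sec p (p • x)) (by
    rw [nsmul_sub, sec_spec hp, sub_self])
  have hx : x = sec p (p • x) + i • hh p := by rw [← hi]; abel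
  conv_rhs => rw [hx]
  unfold LL
  rw [← sum_shift (fun j : ℕ => F (sec p (p • x) + j • hh p)) (fun j => by
    simp only [add_nsmul, nsmul_hh hp, add_zero]) i]
  apply sum_congr rfl
  intro j _
  rw [add_nsmul, add_assoc, add_comm (j • hh p)]

lemma LL_mul {p : ℕ} (hp : 0 < p) (g F : UnitAddCircle → ℝ≥0∞) (y : UnitAddCircle) :
    g y * LL p F y = LL p (fun x => g (p • x) * F x) y := by
  unfold LL
  rw [mul_sum]
  apply sum_congr rfl
  intro i _
  have : p • (sec p y + i • hh p) = y := by
    rw [nsmul_add, sec_spec hp, ← mul_nsmul', mul_comm, mul_nsmul', nsmul_hh hp, nsmul_zero,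
      add_zero]
  change g y * F _ = g (p • (sec p y + i • hh p)) * F _
  rw [this]

lemma lintegral_Om_one {p : ℕ} (hp : 0 < p) {ω : Measure UnitAddCircle}
    (hω : MeasurePreserving (fun x : UnitAddCircle => p • x) ω ω) {F : UnitAddCircle → ℝ≥0∞}
    (hF : Measurable F) : ∫⁻ x, F x ∂(Om ω p) = ∫⁻ x, LL p F x ∂ω := by
  have hm : ∀ i ∈ range p, Measurable fun x : UnitAddCircle => F (x + i • hh p) :=
    fun i _ => hF.comp (measurable_tr _)
  rw [lintegral_Om ω p hF, ← lintegral_finsetSum _ hm,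
    ← hω.lintegral_comp (measurable_LL p hF)]
  exact lintegral_congr fun x => (LL_apply hp F x).symm

lemma lintegral_Om_succ {p : ℕ} (hp : 0 < p) {ω : Measure UnitAddCircle}
    (hω : MeasurePreserving (fun x : UnitAddCircle => p • x) ω ω) (n : ℕ)
    {F : UnitAddCircle → ℝ≥0∞} (hF : Measurable F) :
    ∫⁻ x, F x ∂(Om ω (p ^ (n + 1))) = ∫⁻ x, LL p F x ∂(Om ω (p ^ n)) := by
  have hpn : 0 < p ^ n := by positivity
  rw [lintegral_Om ω _ hF, lintegral_Om ω _ (measurable_LL p hF), pow_succ, sum_range_mul',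
    sum_comm]
  apply sum_congr rfl
  intro i _
  have hm : ∀ l ∈ range p, Measurable fun x : UnitAddCircle =>
      F (x + (i + p ^ n * l) • hh (p ^ n * p)) := fun l _ => hF.comp (measurable_tr _)
  have hm2 : Measurable fun x : UnitAddCircle => LL p F (x + i • hh (p ^ n)) :=
    (measurable_LL p hF).comp (measurable_tr _)
  rw [← lintegral_finsetSum _ hm, ← hω.lintegral_comp hm2]
  apply lintegral_congr
  intro x
  have h1 : p • x + i • hh (p ^ n) = p • (x + i • hh (p ^ n * p)) := by
    rw [nsmul_add, ← mul_nsmul', mul_comm p i, mul_nsmul', mul_comm (p ^ n) p,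
      nsmul_hh_mul hp hpn]
  rw [h1, LL_apply hp]
  apply sum_congr rfl
  intro l _
  rw [add_nsmul, ← add_assoc, mul_comm (p ^ n) l, mul_nsmul', nsmul_hh_mul hpn hp]

/-- the lift lemma -/
lemma lift {p : ℕ} (hp : 0 < p) {ω : Measure UnitAddCircle}
    (hω : MeasurePreserving (fun x : UnitAddCircle => p • x) ω ω) {n : ℕ}
    {g : UnitAddCircle → ℝ≥0∞} (hg : Measurable g) (h : ω = (Om ω (p ^ n)).withDensity g) :
    Om ω p = (Om ω (p ^ (n + 1))).withDensity (fun x => g (p • x)) := by
  have hgp : Measurable fun x : UnitAddCircle => g (p • x) := hg.comp (measurable_nsmul' p)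
  ext s hs
  have hF : Measurable (s.indicator (fun _ : UnitAddCircle => (1 : ℝ≥0∞))) :=
    measurable_const.indicator hs
  have e1 : Om ω p s = ∫⁻ x, s.indicator (fun _ => (1 : ℝ≥0∞)) x ∂(Om ω p) := by
    rw [lintegral_indicator_const hs, one_mul]
  have e2 : ∫⁻ x, LL p (s.indicator (fun _ => (1 : ℝ≥0∞))) x ∂ω =
      ∫⁻ x, LL p (s.indicator (fun _ => (1 : ℝ≥0∞))) x ∂((Om ω (p ^ n)).withDensity g) := by
    rw [← h]
  rw [e1, lintegral_Om_one hp hω hF, e2,
    lintegral_withDensity_eq_lintegral_mul _ hg (measurable_LL p hF)]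
  simp only [Pi.mul_apply]
  simp_rw [LL_mul hp g]
  have hm : Measurable fun x : UnitAddCircle =>
      g (p • x) * s.indicator (fun _ : UnitAddCircle => (1 : ℝ≥0∞)) x := hgp.mul hF
  rw [← lintegral_Om_succ hp hω n hm, withDensity_apply _ hs, ← lintegral_indicator hs]
  apply lintegral_congr
  intro x
  by_cases hx : x ∈ s <;> simp [hx]

/-- the cocycle -/
noncomputable def UU (p : ℕ) (u : UnitAddCircle → ℝ≥0∞) (n : ℕ) (x : UnitAddCircle) : ℝ≥0∞ :=
  ∏ k ∈ range n, u ((p ^ k) • x)

lemma measurable_UU (p : ℕ) {u : UnitAddCircle → ℝ≥0∞} (hu : Measurable u) (n : ℕ) :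
    Measurable (UU p u n) := by
  unfold UU
  exact Finset.measurable_fun_prod _ fun k _ => hu.comp (measurable_nsmul' _)

lemma UU_succ' (p : ℕ) (u : UnitAddCircle → ℝ≥0∞) (n : ℕ) (x : UnitAddCircle) :
    UU p u (n + 1) x = UU p u n (p • x) * u x := by
  unfold UU
  rw [prod_range_succ']
  congr 1
  · apply prod_congr rfl
    intro k _
    rw [pow_succ, mul_nsmul']
  · simp

lemma UU_succ (p : ℕ) (u : UnitAddCircle → ℝ≥0∞) (n : ℕ) (x : UnitAddCircle) :
    UU p u (n + 1) x = UU p u n x * u ((p ^ n) • x) := by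
  unfold UU
  rw [prod_range_succ]

lemma dens {p : ℕ} (hp : 0 < p) {ω : Measure UnitAddCircle}
    (hω : MeasurePreserving (fun x : UnitAddCircle => p • x) ω ω)
    {u : UnitAddCircle → ℝ≥0∞} (hu : Measurable u) (h : ω = (Om ω p).withDensity u) (n : ℕ) :
    ω = (Om ω (p ^ n)).withDensity (UU p u n) := by
  induction n with
  | zero =>
    have h1 : Om ω (p ^ 0) = ω := by
      unfold Om
      simp
    have h2 : UU p u 0 = 1 := by
      funext x; simp [UU]
    rw [h1, h2, withDensity_one]
  | succ n ih =>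
    have h1 := lift hp hω (measurable_UU p hu n) ih
    conv_lhs => rw [h, h1]
    have hm : Measurable fun x : UnitAddCircle => UU p u n (p • x) :=
      (measurable_UU p hu n).comp (measurable_nsmul' p)
    rw [← withDensity_mul _ hm hu]
    congr 1
    funext x
    rw [UU_succ']
    rfl

lemma UU_le_one {p : ℕ} {u : UnitAddCircle → ℝ≥0∞} (hu1 : ∀ x, u x ≤ 1) (n : ℕ)
    (x : UnitAddCircle) : UU p u n x ≤ 1 := by
  unfold UU
  exact prod_le_one' fun k _ => hu1 _

lemma UU_antitone {p : ℕ} {u : UnitAddCircle → ℝ≥0∞} (hu1 : ∀ x, u x ≤ 1)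
    (x : UnitAddCircle) : Antitone fun n => UU p u n x := by
  apply antitone_nat_of_succ_le
  intro n
  rw [UU_succ]
  exact mul_le_of_le_one_right' (hu1 _)

/-- existence of the density and the role of `K` -/
lemma exists_density {p : ℕ} {ω K : Measure UnitAddCircle} [IsFiniteMeasure ω]
    {i : ℕ} (hi0 : 0 < i) (hip : i < p) (hK : K ≤ ω.map (fun x => x + i • hh p)) :
    ∃ u : UnitAddCircle → ℝ≥0∞, Measurable u ∧ (∀ x, u x ≤ 1) ∧ ω = (Om ω p).withDensity u ∧
      K {x | u x = 1} = 0 := by
  have hle0 : ω + ω.map (fun x => x + i • hh p) ≤ Om ω p := by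
    rw [Measure.le_iff]
    intro s hs
    rw [Om, Measure.add_apply, Measure.finsetSum_apply]
    have h1 : ({0, i} : Finset ℕ) ⊆ range p := by
      intro j hj
      simp only [mem_insert, mem_singleton] at hj
      rw [mem_range]; omega
    refine le_trans (le_of_eq ?_) (sum_le_sum_of_subset h1)
    rw [sum_pair (by omega)]
    simp
  have hle : ω ≤ Om ω p := le_trans (Measure.le_add_right le_rfl) hle0
  set v := ω.rnDeriv (Om ω p) with hv
  have hvm : Measurable v := Measure.measurable_rnDeriv _ _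
  have hv1 : v ≤ᵐ[Om ω p] 1 := Measure.rnDeriv_le_one_of_le hle
  have hfin : IsFiniteMeasure (Om ω p) := inferInstance
  have hld : ω.HaveLebesgueDecomposition (Om ω p) :=
    Measure.haveLebesgueDecomposition_of_sigmaFinite ω (Om ω p)
  have hvd : (Om ω p).withDensity v = ω :=
    Measure.withDensity_rnDeriv_eq _ _ (Measure.absolutelyContinuous_of_le hle)
  set u : UnitAddCircle → ℝ≥0∞ := fun x => min 1 (v x) with hu
  have hum : Measurable u := measurable_const.min hvm
  have huv : u =ᵐ[Om ω p] v := by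
    filter_upwards [hv1] with x hx
    simp only [hu]
    exact min_eq_right hx
  have hud : ω = (Om ω p).withDensity u := by
    rw [withDensity_congr_ae huv, hvd]
  refine ⟨u, hum, fun x => min_le_left _ _, hud, ?_⟩
  have hE : MeasurableSet {x | u x = 1} := hum (measurableSet_singleton 1)
  set E := {x | u x = 1} with hEdef
  have h1 : ω E = Om ω p E := by
    conv_lhs => rw [hud]
    rw [withDensity_apply _ hE]
    have : ∫⁻ x in E, u x ∂(Om ω p) = ∫⁻ x in E, 1 ∂(Om ω p) :=
      setLIntegral_congr_fun hE (fun x hx => hx)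
    rw [this, setLIntegral_one]
  have h2 : ω E + K E ≤ ω E := by
    calc ω E + K E ≤ ω E + (ω.map (fun x => x + i • hh p)) E := by gcongr
      _ = (ω + ω.map (fun x => x + i • hh p)) E := by rw [Measure.add_apply]
      _ ≤ Om ω p E := hle0 E
      _ = ω E := h1.symm
  have h3 : ω E + K E ≤ ω E + 0 := by simpa using h2
  have := (ENNReal.add_le_add_iff_left (measure_ne_top ω E)).1 h3
  exact le_antisymm this bot_le

end Pool.Agent.K3h72.Tr
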