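import Mathlib

/-!
Number theory: `p ^ n ∣ k (q ^ i - q ^ j)` for few pairs `i, j < p ^ n`.
-/

set_option autoImplicit false

namespace Pool.Agent.K3h72.Tr

/-- the constant in the lifting-the-exponent estimate -/
noncomputable def DD (p q : ℕ) (k : ℤ) : ℤ := k * ((q : ℤ) ^ (Nat.totient (p ^ 2)) - 1)

lemma DD_ne {p q : ℕ} (hp : 2 ≤ p) (hq : 2 ≤ q) {k : ℤ} (hk : k ≠ 0) : DD p q k ≠ 0 := by
  have h1 : 0 < Nat.totient (p ^ 2) := Nat.totient_pos.2 (by positivity)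
  have h2 : 1 < q ^ Nat.totient (p ^ 2) := Nat.one_lt_pow h1.ne' (by omega)
  have h3 : (1 : ℤ) < (q : ℤ) ^ Nat.totient (p ^ 2) := by exact_mod_cast h2
  unfold DD
  exact mul_ne_zero hk (by omega)

/-- lifting the exponent -/
lemma dvd_lte {p q : ℕ} (hpq : Nat.Coprime p q) {k : ℤ} {m n : ℕ}
    (h : ((p ^ n : ℕ) : ℤ) ∣ k * ((q : ℤ) ^ m - 1)) : ((p ^ n : ℕ) : ℤ) ∣ DD p q k * m := by
  set M := Nat.totient (p ^ 2) with hM
  have hmod : (p ^ 2 : ℤ) ∣ (q : ℤ) ^ M - 1 := by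
    have h1 : q ^ M ≡ 1 [MOD p ^ 2] := Nat.ModEq.pow_totient (Nat.Coprime.pow_right 2 hpq.symm)
    have h2 := (Nat.modEq_iff_dvd.1 h1.symm)
    push_cast at h2
    exact h2
  rw [← Int.dvd_natAbs, Int.natCast_dvd_natCast, Nat.dvd_iff_prime_pow_dvd_dvd]
  intro r s hr hs
  rcases Nat.eq_zero_or_pos s with rfl | hs0
  · simp
  have hrp : r ∣ p := hr.dvd_of_dvd_pow ((dvd_pow_self r hs0.ne').trans hs)
  have hrq : ¬ r ∣ q := fun h' => hr.one_lt.ne' (Nat.dvd_one.1 (hpq ▸ Nat.dvd_gcd hrp h'))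
  have hrq' : ¬ (r : ℤ) ∣ (q : ℤ) ^ M := by
    intro h'
    have h1 : (r : ℤ) ∣ ((q ^ M : ℕ) : ℤ) := by push_cast; exact h'
    exact hrq (hr.dvd_of_dvd_pow (Int.natCast_dvd_natCast.1 h1))
  have h1 : ((r : ℤ)) ^ s ∣ k * ((q : ℤ) ^ m - 1) := by
    have : ((r ^ s : ℕ) : ℤ) ∣ ((p ^ n : ℕ) : ℤ) := Int.natCast_dvd_natCast.2 hs
    push_cast at this
    exact this.trans (by push_cast at h; exact h)
  have h2 : (q : ℤ) ^ m - 1 ∣ ((q : ℤ) ^ M) ^ m - 1 ^ m := by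
    have h3 := sub_dvd_pow_sub_pow ((q : ℤ) ^ m) 1 M
    rw [← pow_mul, mul_comm m M, pow_mul] at h3
    simpa using h3
  have h4 : ((r : ℤ)) ^ s ∣ k * (((q : ℤ) ^ M) ^ m - 1 ^ m) := h1.trans (mul_dvd_mul_left k h2)
  have hprime : Prime (r : ℤ) := Nat.prime_iff_prime_int.1 hr
  have hlte : emultiplicity (r : ℤ) (((q : ℤ) ^ M) ^ m - 1 ^ m) =
      emultiplicity (r : ℤ) ((q : ℤ) ^ M - 1) + emultiplicity (r : ℤ) (m : ℤ) := by
    rcases hr.eq_two_or_odd' with rfl | hodd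
    · have h4 : (4 : ℤ) ∣ (q : ℤ) ^ M - 1 := by
        obtain ⟨c, hc⟩ := hrp
        refine Dvd.dvd.trans ?_ hmod
        rw [hc]
        exact ⟨c ^ 2, by push_cast; ring⟩
      have := Int.two_pow_sub_pow' (x := (q : ℤ) ^ M) (y := 1) m h4 (by exact_mod_cast hrq')
      exact_mod_cast this
    · have hd : (r : ℤ) ∣ (q : ℤ) ^ M - 1 := by
        refine Dvd.dvd.trans ?_ hmod
        have : (r : ℤ) ∣ (p : ℤ) := Int.natCast_dvd_natCast.2 hrp
        exact this.trans (dvd_pow_self _ (by norm_num))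
      have := Int.emultiplicity_pow_sub_pow hr hodd (x := (q : ℤ) ^ M) (y := 1) hd hrq' m
      rw [this, Int.natCast_emultiplicity]
  have h5 : ((r : ℤ)) ^ s ∣ DD p q k * m := by
    rw [pow_dvd_iff_le_emultiplicity, emultiplicity_mul hprime] at h4 ⊢
    rw [DD, emultiplicity_mul hprime, ← hM, add_assoc, ← hlte]
    exact h4
  have h6 : ((r ^ s : ℕ) : ℤ) ∣ DD p q k * m := by push_cast; exact h5
  rwa [← Int.natCast_dvd_natCast, Int.dvd_natAbs]

lemma dvd_sub_of_dvd {p q : ℕ} (hpq : Nat.Coprime p q) {k : ℤ} {i j n : ℕ}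
    (h : ((p ^ n : ℕ) : ℤ) ∣ k * (q : ℤ) ^ i - k * (q : ℤ) ^ j) :
    ((p ^ n : ℕ) : ℤ) ∣ DD p q k * ((i : ℤ) - j) := by
  have key : ∀ i j : ℕ, i ≤ j → ((p ^ n : ℕ) : ℤ) ∣ k * (q : ℤ) ^ i - k * (q : ℤ) ^ j →
      ((p ^ n : ℕ) : ℤ) ∣ DD p q k * ((i : ℤ) - j) := by
    intro i j hij h
    obtain ⟨m, rfl⟩ := Nat.exists_eq_add_of_le hij
    have h1 : k * (q : ℤ) ^ i - k * (q : ℤ) ^ (i + m) = -(q : ℤ) ^ i * (k * ((q : ℤ) ^ m - 1)) := by
      ring
    rw [h1, neg_mul, dvd_neg] at h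
    have hc : IsCoprime ((p ^ n : ℕ) : ℤ) ((q : ℤ) ^ i) := by
      have : Nat.Coprime (p ^ n) (q ^ i) := Nat.Coprime.pow n i hpq
      have h2 := Nat.isCoprime_iff_coprime.2 this
      push_cast at h2 ⊢
      exact h2
    have h3 := dvd_lte hpq (hc.dvd_of_dvd_mul_left h)
    have h4 : DD p q k * ((i : ℤ) - ((i + m : ℕ) : ℤ)) = -(DD p q k * m) := by
      push_cast; ring
    rw [h4, dvd_neg]
    exact h3
  rcases le_total i j with hij | hij
  · exact key i j hij h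
  · have h1 := key j i hij (by
      have : k * (q : ℤ) ^ j - k * (q : ℤ) ^ i = -(k * (q : ℤ) ^ i - k * (q : ℤ) ^ j) := by ring
      rw [this, dvd_neg]; exact h)
    have : DD p q k * ((i : ℤ) - j) = -(DD p q k * ((j : ℤ) - i)) := by ring
    rw [this, dvd_neg]; exact h1

open Classical in
lemma card_dvd_le {P : ℕ} (hP : 0 < P) {D : ℤ} (hD : D ≠ 0) (i : ℕ) (hi : i < P) :
    ((Finset.range P).filter fun j : ℕ => (P : ℤ) ∣ D * ((i : ℤ) - j)).card ≤ 2 * D.natAbs := by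
  have hD' : 0 < D.natAbs := Int.natAbs_pos.2 hD
  rw [← Finset.card_range (2 * D.natAbs)]
  have hdv : ∀ j : ℕ, j < P → (P : ℤ) ∣ D * ((i : ℤ) - j) → P ∣ D.natAbs * (i + P - j) := by
    intro j hj hd
    have h1 : (P : ℤ) ∣ D * (((i + P - j : ℕ)) : ℤ) := by
      have : D * (((i + P - j : ℕ)) : ℤ) = D * ((i : ℤ) - j) + P * D := by
        push_cast [show j ≤ i + P by omega]; ring
      rw [this]
      exact dvd_add hd (dvd_mul_right _ _)
    have h2 := Int.natCast_dvd.1 h1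
    rwa [Int.natAbs_mul, Int.natAbs_natCast] at h2
  refine Finset.card_le_card_of_injOn (fun j => D.natAbs * (i + P - j) / P) ?_ ?_
  · intro j hj
    simp only [Finset.coe_filter, Finset.mem_range, Set.mem_ofPred_eq] at hj
    simp only [Finset.coe_range, Set.mem_Iio]
    rw [Nat.div_lt_iff_lt_mul hP]
    have : i + P - j < 2 * P := by omega
    nlinarith
  · intro j hj l hl hjl
    simp only [Finset.coe_filter, Finset.mem_range, Set.mem_ofPred_eq] at hj hl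
    simp only at hjl
    have h1 := Nat.mul_div_cancel' (hdv j hj.1 hj.2)
    have h2 := Nat.mul_div_cancel' (hdv l hl.1 hl.2)
    rw [hjl, h2] at h1
    have h3 := Nat.eq_of_mul_eq_mul_left hD' h1
    omega

end Pool.Agent.K3h72.Tr
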