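import Mathlib

/-!
A principle for measures on the circle which are dominated by an invariant measure singular to
Lebesgue measure: averages of their images cannot converge to Lebesgue measure.
-/

set_option autoImplicit false

open MeasureTheory Filter Topology

namespace Pool.Agent.K3h72.Tr

lemma cont_mul (n : ℕ) : Continuous (fun x : UnitAddCircle => n • x) := continuous_const_smul n

/-- If `K ≤ ν`, `ν` is singular to Lebesgue measure and the averages of the images of `K` under
some multiplications preserving `ν` are asymptotically dominated by Lebesgue measure, then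
`K = 0`. -/
theorem principle {ν K : Measure UnitAddCircle} [IsFiniteMeasure ν] (hK : K ≤ ν)
    (hν : ν ⟂ₘ volume)
    (h : ∀ f : UnitAddCircle → ℝ, Continuous f → (∀ x, 0 ≤ f x) → (∀ x, f x ≤ 1) →
      ∀ ε : ℝ, 0 < ε → ∃ N : ℕ, 0 < N ∧ ∃ n : ℕ → ℕ,
        (∀ i < N, MeasurePreserving (fun x : UnitAddCircle => n i • x) ν ν) ∧
        (∑ i ∈ Finset.range N, ∫ x, f (n i • x) ∂K) ≤ N * ((∫ x, f x) + ε)) :
    K = 0 := by
  have : IsFiniteMeasure K := isFiniteMeasure_of_le ν hK
  by_contra hne
  have hc : 0 < K.real Set.univ := by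
    rw [Measure.real, ENNReal.toReal_pos_iff]
    exact ⟨pos_iff_ne_zero.2 (fun h0 => hne (Measure.measure_univ_eq_zero.1 h0)), measure_lt_top _ _⟩
  set c := K.real Set.univ with hcdef
  obtain ⟨s, hs, hs0, hs1⟩ := hν
  set ε : ℝ := c / 4 with hε
  have hε0 : 0 < ε := by positivity
  obtain ⟨C, hCs, hCc, hC⟩ := hs.compl.exists_isCompact_lt_add (μ := ν) (measure_ne_top _ _)
    (ε := ENNReal.ofReal ε) (by simpa using hε0)
  have hC0 : volume C = 0 := measure_mono_null hCs hs1
  obtain ⟨U, hCU, hUo, hU⟩ := Set.exists_isOpen_lt_add (μ := (volume : Measure UnitAddCircle)) C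
    (by rw [hC0]; simp) (ε := ENNReal.ofReal ε) (by simpa using hε0)
  rw [hC0, zero_add] at hU
  obtain ⟨f, hf1, hf0, -, hf01⟩ := exists_continuous_one_zero_of_isCompact hCc hUo.isClosed_compl
    (Set.disjoint_compl_right_iff_subset.2 hCU)
  have hfc : Continuous f := f.continuous
  have hfi : ∀ (m : Measure UnitAddCircle) [IsFiniteMeasure m], Integrable f m := fun m _ =>
    Integrable.of_bound hfc.aestronglyMeasurable 1
      (Eventually.of_forall fun x => by
        rw [Real.norm_eq_abs, abs_of_nonneg (hf01 x).1]; exact (hf01 x).2)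
  have hgi : ∀ (m : Measure UnitAddCircle) [IsFiniteMeasure m], Integrable (fun x => 1 - f x) m :=
    fun m _ => (integrable_const _).sub (hfi m)
  -- the integral with respect to Lebesgue measure
  have hvol : ∫ x, f x ≤ ε := by
    have h1 : ∫ x, f x ≤ ∫ x, U.indicator (fun _ => (1 : ℝ)) x := by
      apply integral_mono (hfi _)
      · exact (integrable_const (1 : ℝ)).indicator hUo.measurableSet
      · intro x
        by_cases hx : x ∈ U
        · simpa [hx] using (hf01 x).2
        · simp [hx, hf0 hx]
    rw [integral_indicator hUo.measurableSet, setIntegral_const, smul_eq_mul, mul_one] at h1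
    refine h1.trans ?_
    rw [Measure.real]
    exact ENNReal.toReal_le_of_le_ofReal hε0.le hU.le
  -- the integral of `1 - f` with respect to `ν`
  have hCm : MeasurableSet C := hCc.isClosed.measurableSet
  have hν1 : ν Cᶜ ≤ ENNReal.ofReal ε := by
    have h1 : Cᶜ ⊆ s ∪ (sᶜ \ C) := by
      intro x hx
      by_cases hxs : x ∈ s
      · exact Or.inl hxs
      · exact Or.inr ⟨hxs, hx⟩
    refine (measure_mono h1).trans ((measure_union_le _ _).trans ?_)
    rw [hs0, zero_add, measure_sdiff hCs hCm.nullMeasurableSet (measure_ne_top _ _)]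
    exact tsub_le_iff_left.2 hC.le
  have hνf : ∫ x, (1 - f x) ∂ν ≤ ε := by
    have h1 : ∫ x, (1 - f x) ∂ν ≤ ∫ x, Cᶜ.indicator (fun _ => (1 : ℝ)) x ∂ν := by
      apply integral_mono (hgi _)
      · exact (integrable_const (1 : ℝ)).indicator hCm.compl
      · intro x
        by_cases hx : x ∈ C
        · simp [hx, hf1 hx]
        · simpa [hx] using (hf01 x).1
    rw [integral_indicator hCm.compl, setIntegral_const, smul_eq_mul, mul_one] at h1
    refine h1.trans ?_
    rw [Measure.real]
    exact ENNReal.toReal_le_of_le_ofReal hε0.le hν1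
  obtain ⟨N, hN, n, hn, hsum⟩ := h f hfc (fun x => (hf01 x).1) (fun x => (hf01 x).2) ε hε0
  have key : ∀ i < N, c ≤ (∫ x, f (n i • x) ∂K) + ε := by
    intro i hi
    have e1 : Integrable (fun x => f (n i • x)) K :=
      Integrable.of_bound (hfc.comp (cont_mul _)).aestronglyMeasurable 1
        (Eventually.of_forall fun x => by
          rw [Real.norm_eq_abs, abs_of_nonneg (hf01 _).1]; exact (hf01 _).2)
    have e2 : Integrable (fun x => f (n i • x)) ν :=
      Integrable.of_bound (hfc.comp (cont_mul _)).aestronglyMeasurable 1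
        (Eventually.of_forall fun x => by
          rw [Real.norm_eq_abs, abs_of_nonneg (hf01 _).1]; exact (hf01 _).2)
    have e6 : Integrable (fun x => 1 - f (n i • x)) K := (integrable_const _).sub e1
    have e3 : c = (∫ x, f (n i • x) ∂K) + ∫ x, (1 - f (n i • x)) ∂K := by
      rw [← integral_add e1 e6]
      simp [hcdef]
    have e4 : ∫ x, (1 - f (n i • x)) ∂K ≤ ∫ x, (1 - f (n i • x)) ∂ν :=
      integral_mono_measure hK (Eventually.of_forall fun x => by
        simpa using (hf01 (n i • x)).2) ((integrable_const _).sub e2)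
    have e5 : ∫ x, (1 - f (n i • x)) ∂ν = ∫ x, (1 - f x) ∂ν := by
      have h7 := integral_map (μ := ν) (cont_mul (n i)).measurable.aemeasurable
        (f := fun x => 1 - f x) ((continuous_const.sub hfc).aestronglyMeasurable)
      rw [(hn i hi).map_eq] at h7
      exact h7.symm
    linarith
  have hfin : (N : ℝ) * c ≤ N * (3 * ε) := by
    calc (N : ℝ) * c = ∑ i ∈ Finset.range N, c := by simp
      _ ≤ ∑ i ∈ Finset.range N, ((∫ x, f (n i • x) ∂K) + ε) :=
          Finset.sum_le_sum fun i hi => key i (Finset.mem_range.1 hi)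
      _ = (∑ i ∈ Finset.range N, ∫ x, f (n i • x) ∂K) + N * ε := by
          rw [Finset.sum_add_distrib]; simp
      _ ≤ N * ((∫ x, f x) + ε) + N * ε := by linarith
      _ ≤ N * (3 * ε) := by
          have : (0 : ℝ) ≤ N := by positivity
          nlinarith
  have hN' : (0 : ℝ) < N := by exact_mod_cast hN
  have := le_of_mul_le_mul_left hfin hN'
  rw [hε] at this
  linarith

end Pool.Agent.K3h72.Tr
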